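import Mathlib
import Pool.Agent.T9h49.SD.Bochert

/-!
# A permutation group of small index has a large alternating class
-/

set_option autoImplicit false
set_option linter.unusedSectionVars false

namespace Pool.Agent.T9h47.ST

open Equiv Equiv.Perm Finset
open Pool.Agent.T9h49.SD
open scoped Nat

variable {P : Type*} [Fintype P] [DecidableEq P] {H : Subgroup (Perm P)}

/-- the product of two disjoint swaps of points of one class -/
theorem swap_swap_mem {a b c d : P} (hab : Rel H a b) (hac : Rel H a c) (had : Rel H a d)
    (h1 : a ≠ b) (h2 : a ≠ c) (h4 : b ≠ c) (h5 : b ≠ d) (h6 : c ≠ d) :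
    swap a b * swap c d ∈ H := by
  have e1 : swap a b * swap c d = cyc a b c * cyc b c d := by
    unfold cyc
    rw [mul_assoc, ← mul_assoc (swap b c) (swap b c), swap_mul_self, one_mul]
  rw [e1]
  exact H.mul_mem (hab.cyc_mem hac h1 h2 h4)
    ((hab.symm.trans hac).cyc_mem (hab.symm.trans had) h4 h5 h6)

variable (H)

/-- the union of some classes -/
noncomputable def uni (T : Finset (Quotient (stoid H))) : Finset P :=
  univ.filter (fun i => cls H i ∈ T)

theorem mem_uni (T : Finset (Quotient (stoid H))) (i : P) : i ∈ uni H T ↔ cls H i ∈ T := by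
  unfold uni
  rw [mem_filter]
  exact ⟨fun h => h.2, fun h => ⟨mem_univ _, h⟩⟩

theorem map_uni (T : Finset (Quotient (stoid H))) {f : Perm P} (hf : f ∈ H) (i j : P)
    (hij : cls H i = cls H j) (hi : i ∈ (uni H T).image f) : j ∈ (uni H T).image f := by
  rw [mem_image] at hi ⊢
  obtain ⟨a, ha, rfl⟩ := hi
  refine ⟨f⁻¹ j, ?_, pai f j⟩
  rw [mem_uni] at ha ⊢
  have h1 : Rel H (f a) j := (cls_eq H).1 hij
  have h2 := h1.map (H.inv_mem hf)
  rw [pia] at h2
  rw [← (cls_eq H).2 h2]
  exact ha

/-- the index is at least the number of images of a union of classes, divided by the number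
of unions of classes -/
theorem choose_le (T : Finset (Quotient (stoid H))) :
    (Fintype.card P).choose (uni H T).card ≤
      2 ^ Fintype.card (Quotient (stoid H)) * H.index := by
  classical
  have hex : ∀ B : Finset P, B.card = (uni H T).card → ∃ f : Perm P, (uni H T).image f = B := by
    intro B hB
    obtain ⟨e⟩ : Nonempty ({x // x ∈ uni H T} ≃ {x // x ∈ B}) :=
      ⟨Finset.equivOfCardEq hB.symm⟩
    refine ⟨e.extendSubtype, ?_⟩
    ext x
    rw [mem_image]
    constructor
    · rintro ⟨a, ha, rfl⟩
      exact e.extendSubtype_mem a ha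
    · intro hx
      refine ⟨(e.symm ⟨x, hx⟩).1, (e.symm ⟨x, hx⟩).2, ?_⟩
      rw [e.extendSubtype_apply_of_mem _ (e.symm ⟨x, hx⟩).2]
      show (e (e.symm ⟨x, hx⟩)).1 = x
      rw [Equiv.apply_symm_apply]
  choose! F hF using hex
  have h1 := card_le_mul_card_image_of_maps_to (s := powersetCard (uni H T).card (univ : Finset P))
    (t := (univ : Finset (Perm P ⧸ H))) (f := fun B => (QuotientGroup.mk (F B) : Perm P ⧸ H))
    (fun _ _ => mem_univ _) (2 ^ Fintype.card (Quotient (stoid H))) (by
      intro q _
      by_cases hne : ((powersetCard (uni H T).card (univ : Finset P)).filter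
          (fun B => (QuotientGroup.mk (F B) : Perm P ⧸ H) = q)).Nonempty
      · obtain ⟨B₀, hB₀⟩ := hne
        rw [mem_filter, mem_powersetCard] at hB₀
        obtain ⟨g, hg⟩ : ∃ g : Perm P, g = (F B₀)⁻¹ := ⟨_, rfl⟩
        rw [← Fintype.card_finset, ← card_univ]
        refine card_le_card_of_injOn (fun B => (B.image g).image (cls H))
          (fun _ _ => mem_coe.2 (mem_univ _)) ?_
        have key : ∀ B ∈ (powersetCard (uni H T).card (univ : Finset P)).filter
            (fun B => (QuotientGroup.mk (F B) : Perm P ⧸ H) = q), ∀ x,
            x ∈ B ↔ cls H (g x) ∈ (B.image g).image (cls H) := by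
          intro B hB x
          rw [mem_filter, mem_powersetCard] at hB
          have h2 : g * F B ∈ H := by
            rw [hg]
            exact QuotientGroup.eq.1 (hB₀.2.trans hB.2.symm)
          have h3 : B.image g = (uni H T).image (g * F B) := by
            have h5 : ((uni H T).image (F B)).image g = B.image g := by rw [hF B hB.1.2]
            rw [← h5, image_image]
            rfl
          constructor
          · intro hx
            exact mem_image_of_mem _ (mem_image_of_mem _ hx)
          · intro hx
            rw [mem_image] at hx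
            obtain ⟨y, hy, hyx⟩ := hx
            rw [h3] at hy
            have h4 := map_uni H T h2 y _ hyx hy
            rw [← h3, mem_image] at h4
            obtain ⟨z, hz, hzx⟩ := h4
            rw [← g.injective hzx]
            exact hz
        intro B hB B' hB' hBB
        ext x
        rw [key B hB x, key B' hB' x]
        have hBB' : (B.image g).image (cls H) = (B'.image g).image (cls H) := hBB
        rw [hBB']
      · rw [not_nonempty_iff_eq_empty] at hne
        rw [hne, card_empty]
        exact Nat.zero_le _)
  rw [card_powersetCard, card_univ, card_univ] at h1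
  rw [Subgroup.index, Nat.card_eq_fintype_card]
  exact h1

/-- a subgroup of small index has a class which contains almost everything -/
theorem exists_class (t : ℕ) (ht : 3 * t ≤ Fintype.card P) (ht0 : 0 < t)
    (h : ∀ j, t ≤ j → j + t ≤ Fintype.card P →
      2 ^ Fintype.card (Quotient (stoid H)) * H.index < (Fintype.card P).choose j) :
    ∃ c, Fintype.card P < t + (univ.filter (fun i => cls H i = c)).card := by
  classical
  have hun : ∀ T : Finset (Quotient (stoid H)), (uni H T).card < t ∨
      Fintype.card P < (uni H T).card + t := by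
    intro T
    by_contra hcon
    push Not at hcon
    exact absurd (choose_le H T) (not_le.2 (h _ hcon.1 hcon.2))
  obtain ⟨T, hT, hmax⟩ := Finset.exists_max_image
    (univ.filter (fun T : Finset (Quotient (stoid H)) => (uni H T).card < t)) Finset.card
    ⟨∅, by
      rw [mem_filter]
      refine ⟨mem_univ _, ?_⟩
      have : uni H ∅ = ∅ := by
        ext i
        rw [mem_uni]
        simp
      rw [this, card_empty]
      exact ht0⟩
  rw [mem_filter] at hT
  have hne : T ≠ univ := by
    intro hTu
    have : uni H T = univ := by
      ext i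
      rw [mem_uni, hTu]
      simp
    have h2 := hT.2
    rw [this, card_univ] at h2
    omega
  obtain ⟨c, hc⟩ : ∃ c, c ∉ T := by
    by_contra hcon
    push Not at hcon
    exact hne (eq_univ_iff_forall.2 hcon)
  have h2 : ¬ (uni H (insert c T)).card < t := by
    intro hlt
    have h3 := hmax (insert c T) (by
      rw [mem_filter]
      exact ⟨mem_univ _, hlt⟩)
    rw [card_insert_of_notMem hc] at h3
    omega
  have h3 : (uni H (insert c T)).card ≤
      (univ.filter (fun i => cls H i = c)).card + (uni H T).card := by
    refine le_trans (card_le_card ?_) (card_union_le _ _)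
    intro i hi
    rw [mem_uni, mem_insert] at hi
    rw [mem_union, mem_filter, mem_uni]
    rcases hi with hi | hi
    · exact Or.inl ⟨mem_univ _, hi⟩
    · exact Or.inr hi
  have h4 := hun (insert c T)
  have h5 := hun {c}
  have h6 : uni H {c} = univ.filter (fun i => cls H i = c) := by
    ext i
    rw [mem_uni, mem_filter, mem_singleton]
    exact ⟨fun h => ⟨mem_univ _, h⟩, fun h => h.2⟩
  rw [h6] at h5
  refine ⟨c, ?_⟩
  have h7 := hT.2
  omega

end Pool.Agent.T9h47.ST
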