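import Mathlib
import Pool.Agent.T9h47.SC.CircDef

/-!
# Set cover and symmetric circuits: definitions
-/

set_option autoImplicit false

namespace Pool.Agent.T9h47.ST

open Pool.Agent.T9h47.SC

/-- at most `t` sets of the family cover the universe -/
def Cov {U : Type} (F : Set (Finset U)) (t : ℕ) : Prop :=
  ∃ T : Finset (Finset U), (∀ S ∈ T, S ∈ F) ∧ T.card ≤ t ∧ ∀ u, ∃ S ∈ T, u ∈ S

/-- the universe is the disjoint union of at most `t` sets of the family -/
def Part {U : Type} (F : Set (Finset U)) (t : ℕ) : Prop :=
  ∃ T : Finset (Finset U), (∀ S ∈ T, S ∈ F) ∧ T.card ≤ t ∧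
    (∀ S ∈ T, ∀ S' ∈ T, S ≠ S' → Disjoint S S') ∧ ∀ u, ∃ S ∈ T, u ∈ S

/-- the input for the family `F`: `b₁` for the sets in `F`, `b₀` for the others -/
noncomputable def inpF {K U : Type} (b₀ b₁ : K) (F : Set (Finset U)) (S : Finset U) : K :=
  open Classical in if S ∈ F then b₁ else b₀

/-- the image of a set -/
def im {U : Type} [DecidableEq U] (σ : Equiv.Perm U) (S : Finset U) : Finset U := S.image σ

/-- The circuit is symmetric under all permutations of the points in `H`: each permutation of the
universe which fixes all points outside `H` extends to an automorphism of the circuit. -/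
def SymOn {K U : Type} [DecidableEq U] (C : Circuit K (Finset U)) (H : Finset U) : Prop :=
  ∀ σ : Equiv.Perm U, (∀ u, u ∉ H → σ u = u) → ∃ α, C.IsAut (im σ) α

end Pool.Agent.T9h47.ST
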