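import Mathlib
import Pool.Agent.T9h47.SE.Pair2
import Pool.Agent.T9h47.ST.Defs

/-!
# Families of sets from systems of equations
-/

set_option autoImplicit false
set_option linter.unusedSectionVars false

namespace Pool.Agent.T9h47.ST

open Finset
open Pool.Agent.T9h47.SC Pool.Agent.T9h47.SE

section pf

variable {N : ℕ} {U : Type} (e : Fin N × ZMod 2 → U)

/-- swap the two points of the pair `i` for all `i` with `f i = 1` -/
noncomputable def pf (f : Fin N → ZMod 2) (u : U) : U :=
  open Classical in if h : ∃ p, e p = u then e (h.choose.1, h.choose.2 + f h.choose.1) else u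

variable (he : Function.Injective e)

include he in
theorem pf_in (f : Fin N → ZMod 2) (i : Fin N) (x : ZMod 2) : pf e f (e (i, x)) = e (i, x + f i) := by
  have h : ∃ p, e p = e (i, x) := ⟨_, rfl⟩
  unfold pf
  rw [dif_pos h]
  have h1 : h.choose = (i, x) := he h.choose_spec
  rw [h1]

theorem pf_out (f : Fin N → ZMod 2) {u : U} (h : ¬ ∃ p, e p = u) : pf e f u = u := by
  unfold pf
  rw [dif_neg h]

include he in
theorem pf_add (f f' : Fin N → ZMod 2) (u : U) : pf e (f + f') u = pf e f (pf e f' u) := by
  by_cases h : ∃ p, e p = u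
  · obtain ⟨⟨i, x⟩, rfl⟩ := h
    rw [pf_in e he, pf_in e he, pf_in e he]
    congr 2
    show x + (f i + f' i) = x + f' i + f i
    ring
  · rw [pf_out e _ h, pf_out e _ h, pf_out e _ h]

include he in
theorem pf_zero (u : U) : pf e 0 u = u := by
  by_cases h : ∃ p, e p = u
  · obtain ⟨⟨i, x⟩, rfl⟩ := h
    rw [pf_in e he]
    congr 2
    show x + 0 = x
    ring
  · exact pf_out e _ h

include he in
theorem pf_self (f : Fin N → ZMod 2) (u : U) : pf e f (pf e f u) = u := by
  rw [← pf_add e he, vec_self, pf_zero e he]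

/-- `pf` as a permutation -/
noncomputable def PF (f : Fin N → ZMod 2) : Equiv.Perm U where
  toFun := pf e f
  invFun := pf e f
  left_inv := pf_self e he f
  right_inv := pf_self e he f

theorem PF_apply (f : Fin N → ZMod 2) (u : U) : PF e he f u = pf e f u := rfl

/-- two swaps -/
theorem PF_two [DecidableEq U] (i j : Fin N) (hij : i ≠ j) :
    PF e he (Pi.single i 1 + Pi.single j 1) =
      Equiv.swap (e (i, 0)) (e (i, 1)) * Equiv.swap (e (j, 0)) (e (j, 1)) := by
  have hne : ∀ (i j : Fin N) (x y : ZMod 2), i ≠ j → e (i, x) ≠ e (j, y) := by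
    intro i j x y h h'
    exact h (congrArg Prod.fst (he h'))
  have h1 : ∀ (i : Fin N) (u : U), pf e (Pi.single i 1) u =
      Equiv.swap (e (i, 0)) (e (i, 1)) u := by
    intro i u
    by_cases h : ∃ p, e p = u
    · obtain ⟨⟨l, x⟩, rfl⟩ := h
      rw [pf_in e he]
      by_cases hl : l = i
      · subst hl
        rw [Pi.single_eq_same]
        rcases z2_cases x with rfl | rfl
        · rw [Equiv.swap_apply_left, zero_add]
        · rw [Equiv.swap_apply_right, z2_self]
      · rw [Pi.single_eq_of_ne hl, add_zero,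
          Equiv.swap_apply_of_ne_of_ne (hne _ _ _ _ hl) (hne _ _ _ _ hl)]
    · rw [pf_out e _ h, Equiv.swap_apply_of_ne_of_ne]
      · intro h'; exact h ⟨_, h'.symm⟩
      · intro h'; exact h ⟨_, h'.symm⟩
  ext u
  rw [PF_apply, pf_add e he, h1, h1, Equiv.Perm.mul_apply]

end pf

section sets

variable {N : ℕ} {J U : Type} [Fintype J] [DecidableEq J] [Fintype U] [DecidableEq U]
  (bl : Fin N × Bool → J) (e : Fin N × ZMod 2 → U) (own : U → J)

/-- the first end of an edge takes the point `a i` of the pair, the second one the other point -/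
def be (b : Bool) : ZMod 2 := if b = true then 0 else 1

theorem be_true : be true = 0 := rfl

theorem be_false : be false = 1 := rfl

/-- the set of the vertex `j` for the values `a` of the edges -/
noncomputable def st (j : J) (a : Fin N → ZMod 2) : Finset U :=
  open Classical in univ.filter (fun u =>
    (¬ (∃ p, e p = u) ∧ own u = j) ∨ ∃ i b, bl (i, b) = j ∧ u = e (i, a i + be b))

theorem st_out {j : J} {a : Fin N → ZMod 2} {u : U} (h : ¬ ∃ p, e p = u) :
    u ∈ st bl e own j a ↔ own u = j := by
  unfold st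
  rw [mem_filter]
  constructor
  · rintro ⟨_, h1 | ⟨i, b, _, rfl⟩⟩
    · exact h1.2
    · exact absurd ⟨_, rfl⟩ h
  · intro h1
    exact ⟨mem_univ _, Or.inl ⟨h, h1⟩⟩

variable (he : Function.Injective e)

include he in
theorem st_in {j : J} {a : Fin N → ZMod 2} {i : Fin N} {x : ZMod 2} :
    e (i, x) ∈ st bl e own j a ↔ ∃ b, bl (i, b) = j ∧ x = a i + be b := by
  unfold st
  rw [mem_filter]
  constructor
  · rintro ⟨_, h1 | ⟨i', b, h1, h2⟩⟩
    · exact absurd ⟨_, rfl⟩ h1.1
    · have h3 := he h2
      have h4 : i = i' := congrArg Prod.fst h3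
      subst h4
      exact ⟨b, h1, congrArg Prod.snd h3⟩
  · rintro ⟨b, h1, h2⟩
    exact ⟨mem_univ _, Or.inr ⟨i, b, h1, by rw [h2]⟩⟩

include he in
theorem st_image (j : J) (a f : Fin N → ZMod 2) :
    (st bl e own j a).image (PF e he f) = st bl e own j (a + f) := by
  have key : ∀ a f u, u ∈ st bl e own j a → pf e f u ∈ st bl e own j (a + f) := by
    intro a f u hu
    by_cases h : ∃ p, e p = u
    · obtain ⟨⟨i, x⟩, rfl⟩ := h
      rw [pf_in e he]
      rw [st_in bl e own he] at hu ⊢
      obtain ⟨b, h1, h2⟩ := hu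
      refine ⟨b, h1, ?_⟩
      rw [h2]
      show a i + be b + f i = a i + f i + be b
      ring
    · rw [pf_out e _ h]
      rw [st_out bl e own h] at hu ⊢
      exact hu
  ext u
  rw [mem_image]
  constructor
  · rintro ⟨w, hw, rfl⟩
    exact key a f w hw
  · intro hu
    refine ⟨pf e f u, ?_, pf_self e he f u⟩
    have h1 := key (a + f) f u hu
    rwa [add_assoc, vec_self, add_zero] at h1

include he in
/-- the set determines the values -/
theorem st_inj (j : J) (a f : Fin N → ZMod 2) (h : st bl e own j (a + f) = st bl e own j a)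
    (i : Fin N) (hi : i ∈ RG bl 1 j) : f i = 0 := by
  unfold RG at hi
  rw [mem_filter] at hi
  have hb : ∃ b, bl (i, b) = j ∧ bl (i, !b) ≠ j := by
    by_cases h1 : bl (i, false) = j
    · refine ⟨false, h1, fun h2 => hi.2 ⟨fun _ => h2, fun _ => h1⟩⟩
    · refine ⟨true, ?_, h1⟩
      by_contra h2
      exact hi.2 ⟨fun h3 => absurd h3 h1, fun h3 => absurd h3 h2⟩
  obtain ⟨b, hb1, hb2⟩ := hb
  have h1 : e (i, (a + f) i + be b) ∈ st bl e own j a := by
    rw [← h, st_in bl e own he]
    exact ⟨b, hb1, rfl⟩
  rw [st_in bl e own he] at h1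
  obtain ⟨b', h2, h3⟩ := h1
  have h4 : b' = b := by
    by_contra h5
    have h6 : b' = !b := by revert h5; cases b <;> cases b' <;> simp
    rw [h6] at h2
    exact hb2 h2
  rw [h4] at h3
  have h5 : a i + f i + be b = a i + be b := h3
  have h6 : a i + f i = a i := add_right_cancel h5
  exact add_eq_left.1 h6

/-- the family of sets for the right hand side `c` -/
def fam (c : J → ZMod 2) : Set (Finset U) :=
  {S | ∃ j a, S = st bl e own j a ∧ ∑ i ∈ RG bl 1 j, a i = c j}

include he in
theorem fam_flip (c : J → ZMod 2) (f : Fin N → ZMod 2) (S : Finset U) :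
    S.image (PF e he f) ∈ fam bl e own (c + AA (RG bl 1) f) ↔ S ∈ fam bl e own c := by
  have key : ∀ c f (S : Finset U), S ∈ fam bl e own c →
      S.image (PF e he f) ∈ fam bl e own (c + AA (RG bl 1) f) := by
    rintro c f S ⟨j, a, rfl, h⟩
    refine ⟨j, a + f, st_image bl e own he j a f, ?_⟩
    show ∑ i ∈ RG bl 1 j, (a i + f i) = c j + ∑ i ∈ RG bl 1 j, f i
    rw [sum_add_distrib, h]
  constructor
  · intro h
    have h1 := key _ f _ h
    rw [add_assoc, vec_self, add_zero, image_image] at h1
    have h2 : S.image (⇑(PF e he f) ∘ ⇑(PF e he f)) = S := by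
      have h3 : (⇑(PF e he f) ∘ ⇑(PF e he f)) = id := by
        funext u
        exact pf_self e he f u
      rw [h3, image_id]
    rwa [h2] at h1
  · exact key c f S

include he in
theorem fam_loc (c : J → ZMod 2) (S : Finset U)
    (h : ¬ (S ∈ fam bl e own c ↔ S ∈ fam bl e own 0)) :
    ∃ j, c j ≠ 0 ∧ ∀ f, S.image (PF e he f) = S → ∑ i ∈ RG bl 1 j, f i = 0 := by
  have h1 : ∃ j a, S = st bl e own j a ∧ c j ≠ 0 := by
    by_contra hcon
    push Not at hcon
    apply h
    constructor
    · rintro ⟨j, a, h2, h3⟩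
      refine ⟨j, a, h2, ?_⟩
      rw [h3, hcon j a h2]
      rfl
    · rintro ⟨j, a, h2, h3⟩
      refine ⟨j, a, h2, ?_⟩
      rw [h3, hcon j a h2]
      rfl
  obtain ⟨j, a, rfl, hc⟩ := h1
  refine ⟨j, hc, fun f hf => sum_eq_zero fun i hi => ?_⟩
  rw [st_image bl e own he] at hf
  exact st_inj bl e own he j a f hf i hi

include he in
theorem cov_fam (hown : ∀ j, ∃ u, (¬ ∃ p, e p = u) ∧ own u = j) (c : J → ZMod 2) :
    Cov (fam bl e own c) (Fintype.card J) ↔ ∃ a, AA (RG bl 1) a = c := by
  classical
  constructor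
  · rintro ⟨T, hTF, hTc, hT⟩
    choose pu hpu1 hpu2 using hown
    have h1 : ∀ j, ∃ a, st bl e own j a ∈ T ∧ ∑ i ∈ RG bl 1 j, a i = c j := by
      intro j
      obtain ⟨S, hS, hu⟩ := hT (pu j)
      obtain ⟨j', a, rfl, h2⟩ := hTF S hS
      rw [st_out bl e own (hpu1 j), hpu2] at hu
      subst hu
      exact ⟨a, hS, h2⟩
    choose s hs1 hs2 using h1
    have hinj : Function.Injective (fun j => st bl e own j (s j)) := by
      intro j j' hjj
      have hjj' : st bl e own j (s j) = st bl e own j' (s j') := hjj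
      have h2 : pu j ∈ st bl e own j (s j) := by
        rw [st_out bl e own (hpu1 j)]
        exact hpu2 j
      rw [hjj', st_out bl e own (hpu1 j), hpu2] at h2
      exact h2
    have himg : univ.image (fun j => st bl e own j (s j)) = T := by
      apply eq_of_subset_of_card_le
      · intro S hS
        rw [mem_image] at hS
        obtain ⟨j, _, rfl⟩ := hS
        exact hs1 j
      · rw [card_image_of_injective _ hinj, card_univ]
        exact hTc
    refine ⟨fun i => s (bl (i, true)) i, ?_⟩
    funext j
    rw [AA_apply, ← hs2 j]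
    refine sum_congr rfl fun i hi => ?_
    by_cases h2 : bl (i, true) = j
    · rw [h2]
    · have h3 : bl (i, false) = j := by
        unfold RG at hi
        rw [mem_filter] at hi
        by_contra h4
        exact hi.2 ⟨fun h5 => absurd h5 h4, fun h5 => absurd h5 h2⟩
      obtain ⟨S, hS, hu⟩ := hT (e (i, s j i))
      rw [← himg, mem_image] at hS
      obtain ⟨j', _, rfl⟩ := hS
      rw [st_in bl e own he] at hu
      obtain ⟨b, h4, h5⟩ := hu
      cases b
      · have h6 : j' = j := by rw [← h4, h3]
        rw [h6, be_false] at h5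
        exfalso
        have h7 : (1 : ZMod 2) = 0 := add_eq_left.1 h5.symm
        exact absurd h7 (by decide)
      · rw [be_true, add_zero] at h5
        rw [h4]
        exact h5.symm
  · rintro ⟨a, ha⟩
    refine ⟨univ.image (fun j => st bl e own j a), ?_, card_image_le.trans_eq card_univ, ?_⟩
    · intro S hS
      rw [mem_image] at hS
      obtain ⟨j, _, rfl⟩ := hS
      refine ⟨j, a, rfl, ?_⟩
      rw [← ha]
      rfl
    · intro u
      by_cases h : ∃ p, e p = u
      · obtain ⟨⟨i, x⟩, rfl⟩ := h
        have h1 : ∃ b, x = a i + be b := by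
          have h2 : ∀ x y : ZMod 2, x = y + be true ∨ x = y + be false := by decide
          rcases h2 x (a i) with h3 | h3
          · exact ⟨true, h3⟩
          · exact ⟨false, h3⟩
        obtain ⟨b, hb⟩ := h1
        exact ⟨st bl e own (bl (i, b)) a, mem_image_of_mem _ (mem_univ _), by
          rw [st_in bl e own he]
          exact ⟨b, rfl, hb⟩⟩
      · exact ⟨st bl e own (own u) a, mem_image_of_mem _ (mem_univ _), by
          rw [st_out bl e own h]⟩

include he in
theorem part_fam (c : J → ZMod 2) (a : Fin N → ZMod 2) (ha : AA (RG bl 1) a = c) :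
    Part (fam bl e own c) (Fintype.card J) := by
  classical
  refine ⟨univ.image (fun j => st bl e own j a), ?_, card_image_le.trans_eq card_univ, ?_, ?_⟩
  · intro S hS
    rw [mem_image] at hS
    obtain ⟨j, _, rfl⟩ := hS
    refine ⟨j, a, rfl, ?_⟩
    rw [← ha]
    rfl
  · intro S hS S' hS' hne
    rw [mem_image] at hS hS'
    obtain ⟨j, _, rfl⟩ := hS
    obtain ⟨j', _, rfl⟩ := hS'
    rw [disjoint_left]
    intro u hu hu'
    apply hne
    by_cases h : ∃ p, e p = u
    · obtain ⟨⟨i, x⟩, rfl⟩ := h
      rw [st_in bl e own he] at hu hu'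
      obtain ⟨b, h1, h2⟩ := hu
      obtain ⟨b', h1', h2'⟩ := hu'
      have h3 : be b = be b' := add_left_cancel (h2.symm.trans h2')
      have h4 : b = b' := by
        cases b <;> cases b'
        · rfl
        · exact absurd h3 (by decide)
        · exact absurd h3 (by decide)
        · rfl
      rw [← h1, ← h1', h4]
    · rw [st_out bl e own h] at hu hu'
      rw [← hu, ← hu']
  · intro u
    by_cases h : ∃ p, e p = u
    · obtain ⟨⟨i, x⟩, rfl⟩ := h
      have h1 : ∃ b, x = a i + be b := by
        have h2 : ∀ x y : ZMod 2, x = y + be true ∨ x = y + be false := by decide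
        rcases h2 x (a i) with h3 | h3
        · exact ⟨true, h3⟩
        · exact ⟨false, h3⟩
      obtain ⟨b, hb⟩ := h1
      exact ⟨st bl e own (bl (i, b)) a, mem_image_of_mem _ (mem_univ _), by
        rw [st_in bl e own he]
        exact ⟨b, rfl, hb⟩⟩
    · exact ⟨st bl e own (own u) a, mem_image_of_mem _ (mem_univ _), by
        rw [st_out bl e own h]⟩

theorem card_st (j : J) (a : Fin N → ZMod 2) : (st bl e own j a).card ≤
    (univ.filter (fun u => (¬ ∃ p, e p = u) ∧ own u = j)).card +
      (univ.filter (fun x => bl x = j)).card := by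
  classical
  have h1 : st bl e own j a ⊆ (univ.filter (fun u => (¬ ∃ p, e p = u) ∧ own u = j)) ∪
      (univ.filter (fun x => bl x = j)).image (fun x => e (x.1, a x.1 + be x.2)) := by
    intro u hu
    unfold st at hu
    rw [mem_filter] at hu
    rw [mem_union, mem_filter, mem_image]
    rcases hu.2 with h2 | ⟨i, b, h2, h3⟩
    · exact Or.inl ⟨mem_univ _, h2⟩
    · exact Or.inr ⟨(i, b), mem_filter.2 ⟨mem_univ _, h2⟩, h3.symm⟩
  refine (card_le_card h1).trans ((card_union_le _ _).trans ?_)
  have h2 := card_image_le (s := univ.filter (fun x => bl x = j))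
    (f := fun x : Fin N × Bool => e (x.1, a x.1 + be x.2))
  have h3 : (univ.filter (fun u => (¬ ∃ p, e p = u) ∧ own u = j)).card =
    (open Classical in univ.filter (fun u => (¬ ∃ p, e p = u) ∧ own u = j)).card := rfl
  omega

end sets

end Pool.Agent.T9h47.ST
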