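import Mathlib
import Pool.Agent.T9h47.SE.Pair3

/-!
# Random regular graphs: no two bad cuts agree on more than half of the edges
-/

set_option autoImplicit false
set_option linter.unusedSectionVars false

namespace Pool.Agent.T9h47.ST

open Finset
open Pool.Agent.T9h47.SC Pool.Agent.T9h47.SE

section count

variable {N k : ℕ} {V : Type} [Fintype V] [DecidableEq V] (blk : Fin N × Bool → V)

/-- the number of edges where the two cuts have the type `b` -/
def agr (π : Equiv.Perm (Fin N × Bool)) (y z : V → ZMod 2) (b : ZMod 2 × ZMod 2) : ℕ :=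
  (univ.filter (fun i => (tr (RG blk π) y i, tr (RG blk π) z i) = b)).card

theorem nf_two (hblk : ∀ v, (univ.filter (fun x => blk x = v)).card = k) (y z : V → ZMod 2)
    (b : ZMod 2 × ZMod 2) : nf (fun x => (y (blk x), z (blk x))) b = k * mf y z b := by
  have h1 : nf (fun x => (y (blk x), z (blk x))) b =
      ∑ v ∈ univ.filter (fun v => (y v, z v) = b), (univ.filter (fun x => blk x = v)).card := by
    unfold nf
    rw [card_eq_sum_card_fiberwise (f := blk) (t := univ.filter (fun v => (y v, z v) = b)) (by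
      intro x hx
      rw [mem_coe, mem_filter] at hx
      rw [mem_coe, mem_filter]
      exact ⟨mem_univ _, hx.2⟩)]
    refine sum_congr rfl fun v hv => ?_
    congr 1
    ext x
    rw [mem_filter] at hv
    rw [mem_filter, mem_filter, mem_filter]
    constructor
    · rintro ⟨_, h2⟩; exact ⟨mem_univ _, h2⟩
    · rintro ⟨_, h2⟩
      refine ⟨⟨mem_univ _, ?_⟩, h2⟩
      show (y (blk x), z (blk x)) = b
      rw [h2]
      exact hv.2
  rw [h1, sum_congr rfl (fun v _ => hblk v), sum_const, smul_eq_mul, mul_comm]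
  rfl

theorem pair_tail (hblk : ∀ v, (univ.filter (fun x => blk x = v)).card = k)
    (y z : V → ZMod 2) (hV0 : 0 < Fintype.card V) (hbad : BadP y z) (b : ZMod 2 × ZMod 2)
    (m : ℕ) (lam : ℝ) (hlam : 1 ≤ lam) (hN0 : 0 < N) :
    ((univ.filter (fun π : Equiv.Perm (Fin N × Bool) => m ≤ agr blk π y z b)).card : ℝ) *
      (2 ^ N * lam ^ m) ≤
    (Real.exp 1 * (2 * (N : ℝ) + 1)) ^ 4 * (2 * N).factorial * (1 + lam) ^ N := by
  classical
  obtain ⟨T, hT⟩ : ∃ T : Fin N × Bool → ZMod 2 × ZMod 2, T = fun x => (y (blk x), z (blk x)) :=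
    ⟨_, rfl⟩
  have hcι : Fintype.card (Fin N × Bool) = 2 * N := by
    rw [Fintype.card_prod, Fintype.card_fin, Fintype.card_bool, mul_comm]
  have hnf : ∀ b, nf T b = k * mf y z b := by
    intro b
    rw [hT]
    exact nf_two blk hblk y z b
  have hkV : k * Fintype.card V = 2 * N := by
    have h1 := sum_nf T
    rw [sum_congr rfl (fun b _ => hnf b), ← mul_sum, hcι] at h1
    have h2 : ∑ b, mf y z b = Fintype.card V := by
      have h3 := card_eq_sum_card_fiberwise (s := (univ : Finset V))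
        (t := (univ : Finset (ZMod 2 × ZMod 2))) (f := fun v => (y v, z v))
        (fun x _ => mem_coe.2 (mem_univ _))
      rw [card_univ] at h3
      exact h3.symm
    rw [h2] at h1
    exact h1
  obtain ⟨ν, hν⟩ : ∃ ν : (ZMod 2 × ZMod 2) × (ZMod 2 × ZMod 2) → ℝ,
    ν = fun p => (nf T p.1 : ℝ) * nf T p.2 := ⟨_, rfl⟩
  have hν0 : ∀ p, 0 ≤ ν p := by intro p; rw [hν]; positivity
  have hνs : ∑ p, ν p = (2 * (N : ℝ)) ^ 2 := by
    rw [hν, Fintype.sum_prod_type]
    have h1 : ∀ a : ZMod 2 × ZMod 2, ∑ b, ((nf T a : ℝ) * nf T b) = nf T a * (2 * (N : ℝ)) := by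
      intro a
      rw [← mul_sum]
      congr 1
      have h2 := sum_nf T
      rw [hcι] at h2
      exact_mod_cast h2
    rw [sum_congr rfl fun a _ => h1 a, ← sum_mul]
    have h2 := sum_nf T
    rw [hcι] at h2
    have h3 : ∑ a, (nf T a : ℝ) = 2 * (N : ℝ) := by exact_mod_cast h2
    rw [h3]
    ring
  have hQ : ∑ p ∈ univ.filter (fun p : (ZMod 2 × ZMod 2) × (ZMod 2 × ZMod 2) => p.1 + p.2 = b),
      ν p ≤ 2 * (N : ℝ) ^ 2 := by
    have h1 : ∑ p ∈ univ.filter (fun p : (ZMod 2 × ZMod 2) × (ZMod 2 × ZMod 2) =>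
        p.1 + p.2 = b), ν p = ∑ a, (nf T a : ℝ) * nf T (a + b) := by
      rw [hν]
      refine sum_bij' (fun p _ => p.1) (fun a _ => (a, a + b)) ?_ ?_ ?_ ?_ ?_
      · intro p _; exact mem_univ _
      · intro a _
        rw [mem_filter]
        refine ⟨mem_univ _, ?_⟩
        have h5 : ∀ b : ZMod 2 × ZMod 2, b + b = 0 := by decide
        show a + (a + b) = b
        rw [← add_assoc, h5, zero_add]
      · intro p hp
        rw [mem_filter] at hp
        have h5 : ∀ b : ZMod 2 × ZMod 2, b + b = 0 := by decide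
        show (p.1, p.1 + b) = p
        rw [← hp.2, ← add_assoc, h5, zero_add]
      · intro b _; rfl
      · intro p hp
        rw [mem_filter] at hp
        have h5 : ∀ b : ZMod 2 × ZMod 2, b + b = 0 := by decide
        show (nf T p.1 : ℝ) * nf T p.2 = nf T p.1 * nf T (p.1 + b)
        rw [← hp.2, ← add_assoc, h5, zero_add]
    have h2 : ∑ a, (nf T a : ℝ) * nf T (a + b) ≤ ∑ a, (nf T a : ℝ) ^ 2 := by
      have h3 : ∑ a, (nf T a : ℝ) * nf T (a + b) ≤
          ∑ a, (((nf T a : ℝ) ^ 2 + (nf T (a + b) : ℝ) ^ 2) / 2) := by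
        refine sum_le_sum fun a _ => ?_
        nlinarith [sq_nonneg ((nf T a : ℝ) - nf T (a + b))]
      refine h3.trans (le_of_eq ?_)
      rw [← sum_div, sum_add_distrib]
      have h4 : ∑ a, (nf T (a + b) : ℝ) ^ 2 = ∑ a, (nf T a : ℝ) ^ 2 :=
        Equiv.sum_comp (Equiv.addRight b) (fun a => (nf T a : ℝ) ^ 2)
      rw [h4]
      ring
    have h3 : ∑ b, (nf T b : ℝ) ^ 2 = (k : ℝ) ^ 2 * ∑ b, (mf y z b : ℝ) ^ 2 := by
      rw [mul_sum]
      refine sum_congr rfl fun b _ => ?_
      rw [hnf]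
      push_cast
      ring
    have h5 : ((k : ℝ) * Fintype.card V) = 2 * N := by exact_mod_cast hkV
    have hVR : (0 : ℝ) < Fintype.card V := by exact_mod_cast hV0
    have h4 : 2 * ∑ b, (mf y z b : ℝ) ^ 2 = th y z * (Fintype.card V : ℝ) ^ 2 := by
      unfold th
      field_simp
    have h6 := th_one y z hbad hV0
    rw [h1]
    refine h2.trans ?_
    rw [h3]
    have h7 : (k : ℝ) ^ 2 * (Fintype.card V : ℝ) ^ 2 = 4 * (N : ℝ) ^ 2 := by
      rw [← mul_pow, h5]; ring
    have h8 : 2 * ((k : ℝ) ^ 2 * ∑ b, (mf y z b : ℝ) ^ 2) =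
        th y z * ((k : ℝ) ^ 2 * (Fintype.card V : ℝ) ^ 2) := by
      calc _ = (k : ℝ) ^ 2 * (2 * ∑ b, (mf y z b : ℝ) ^ 2) := by ring
        _ = _ := by rw [h4]; ring
    rw [h7] at h8
    have h9 : th y z * (4 * (N : ℝ) ^ 2) ≤ 1 * (4 * (N : ℝ) ^ 2) :=
      mul_le_mul_of_nonneg_right h6 (by positivity)
    linarith
  -- the generating function
  obtain ⟨S', hS'⟩ : ∃ S' : Finset (Fin N × Bool → ZMod 2 × ZMod 2), S' = univ.filter (fun X =>
    m ≤ (univ.filter (fun i => X (i, false) + X (i, true) = b)).card) := ⟨_, rfl⟩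
  have hperm := perm_count T S'
  have hgen : (∑ X ∈ S', ∏ x, (nf T (X x) : ℝ)) * lam ^ m ≤
      (2 * (N : ℝ) ^ 2 * (1 + lam)) ^ N := by
    have h1 : (∑ X ∈ S', ∏ x, (nf T (X x) : ℝ)) * lam ^ m ≤
        ∑ X : Fin N × Bool → ZMod 2 × ZMod 2, ∏ i, (ν (X (i, false), X (i, true)) *
          (if X (i, false) + X (i, true) = b then lam else 1)) := by
      rw [sum_mul]
      have h2 : ∀ X : Fin N × Bool → ZMod 2 × ZMod 2,
          ∏ i, (ν (X (i, false), X (i, true)) *
            (if X (i, false) + X (i, true) = b then lam else 1)) =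
          (∏ x, (nf T (X x) : ℝ)) *
            lam ^ (univ.filter (fun i => X (i, false) + X (i, true) = b)).card := by
        intro X
        rw [prod_mul_distrib, prod_ite, prod_const_one, mul_one, prod_const]
        congr 1
        rw [Fintype.prod_prod_type]
        refine prod_congr rfl fun i _ => ?_
        rw [Fintype.prod_bool, hν]
        exact mul_comm _ _
      refine le_trans (b := ∑ X ∈ S', ∏ i, (ν (X (i, false), X (i, true)) *
          (if X (i, false) + X (i, true) = b then lam else 1))) ?_ ?_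
      · refine sum_le_sum fun X hX => ?_
        rw [h2 X]
        rw [hS', mem_filter] at hX
        exact mul_le_mul_of_nonneg_left (pow_le_pow_right₀ hlam hX.2)
          (prod_nonneg fun x _ => Nat.cast_nonneg _)
      · refine sum_le_sum_of_subset_of_nonneg (subset_univ _) fun X _ _ => ?_
        refine prod_nonneg fun i _ => mul_nonneg (hν0 _) ?_
        split_ifs <;> linarith
    refine h1.trans ?_
    have h3 : ∑ X : Fin N × Bool → ZMod 2 × ZMod 2, ∏ i, (ν (X (i, false), X (i, true)) *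
          (if X (i, false) + X (i, true) = b then lam else 1)) =
        ∏ _i : Fin N, ∑ p : (ZMod 2 × ZMod 2) × (ZMod 2 × ZMod 2),
          (ν p * (if p.1 + p.2 = b then lam else 1)) := by
      rw [prod_univ_sum, Fintype.piFinset_univ]
      refine sum_bij' (fun X _ => fun i => (X (i, false), X (i, true)))
        (fun G _ => fun x => if x.2 = true then (G x.1).2 else (G x.1).1) ?_ ?_ ?_ ?_ ?_
      · intro X _; exact mem_univ _
      · intro G _; exact mem_univ _
      · intro X _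
        funext x
        obtain ⟨i, b⟩ := x
        cases b
        · rw [if_neg (by simp)]
        · rw [if_pos rfl]
      · intro G _
        funext i
        show ((if ((i, false) : Fin N × Bool).2 = true then
          (G ((i, false) : Fin N × Bool).1).2 else (G ((i, false) : Fin N × Bool).1).1),
          (if ((i, true) : Fin N × Bool).2 = true then
          (G ((i, true) : Fin N × Bool).1).2 else (G ((i, true) : Fin N × Bool).1).1)) = G i
        rw [if_neg (by simp), if_pos rfl]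
      · intro X _
        rfl
    have h4 : ∑ p : (ZMod 2 × ZMod 2) × (ZMod 2 × ZMod 2),
        (ν p * (if p.1 + p.2 = b then lam else 1)) ≤ 2 * (N : ℝ) ^ 2 * (1 + lam) := by
      have h5 : ∀ p : (ZMod 2 × ZMod 2) × (ZMod 2 × ZMod 2),
          ν p * (if p.1 + p.2 = b then lam else 1) =
          ν p + (lam - 1) * (if p.1 + p.2 = b then ν p else 0) := by
        intro p
        split_ifs <;> ring
      rw [sum_congr rfl fun p _ => h5 p, sum_add_distrib, hνs, ← mul_sum, ← sum_filter]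
      have h6 := mul_le_mul_of_nonneg_left hQ (sub_nonneg.2 hlam)
      nlinarith
    rw [h3, prod_const, card_univ, Fintype.card_fin]
    refine pow_le_pow_left₀ (sum_nonneg fun p _ => mul_nonneg (hν0 _) ?_) h4 _
    split_ifs <;> linarith
  have hset : univ.filter (fun π : Equiv.Perm (Fin N × Bool) => m ≤ agr blk π y z b) =
      univ.filter (fun π : Equiv.Perm (Fin N × Bool) => T ∘ π ∈ S') := by
    ext π
    rw [mem_filter, mem_filter, hS', mem_filter]
    have h1 : agr blk π y z b =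
        (univ.filter (fun i => (T ∘ π) (i, false) + (T ∘ π) (i, true) = b)).card := by
      unfold agr
      congr 1
      ext i
      rw [mem_filter, mem_filter, tr_RG, tr_RG, hT]
      rfl
    rw [h1]
    exact ⟨fun h => ⟨h.1, mem_univ _, h.2⟩, fun h => ⟨h.1, h.2.2⟩⟩
  rw [hset]
  have hAcard : Fintype.card (ZMod 2 × ZMod 2) = 4 := by decide
  rw [hcι, hAcard] at hperm
  obtain ⟨u, hu⟩ : ∃ u : ℝ, u = ((univ.filter (fun π : Equiv.Perm (Fin N × Bool) =>
    T ∘ π ∈ S')).card : ℝ) := ⟨_, rfl⟩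
  obtain ⟨w, hw⟩ : ∃ w : ℝ, w = ∑ X ∈ S', ∏ x, (nf T (X x) : ℝ) := ⟨_, rfl⟩
  rw [← hu, ← hw] at hperm
  rw [← hu]
  rw [← hw] at hgen
  have hNR : (0 : ℝ) < N := by exact_mod_cast hN0
  have hpos : (0 : ℝ) < (2 * (N : ℝ) ^ 2) ^ N := by positivity
  have hc0 : 0 ≤ (Real.exp 1 * (2 * (N : ℝ) + 1)) ^ 4 * (2 * N).factorial := by positivity
  have h1 : (2 * (N : ℝ) ^ 2) ^ N * (u * (2 ^ N * lam ^ m)) ≤ (2 * (N : ℝ) ^ 2) ^ N *
      ((Real.exp 1 * (2 * (N : ℝ) + 1)) ^ 4 * (2 * N).factorial * (1 + lam) ^ N) := by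
    have h2 : (2 * (N : ℝ) ^ 2) ^ N * (u * (2 ^ N * lam ^ m)) =
        (u * (2 * (N : ℝ)) ^ (2 * N)) * lam ^ m := by
      rw [pow_mul]
      have : (2 * (N : ℝ)) ^ 2 = (2 * (N : ℝ) ^ 2) * 2 := by ring
      rw [this, mul_pow (2 * (N : ℝ) ^ 2) 2 N]
      obtain ⟨q, hq⟩ : ∃ q : ℝ, q = (2 * (N : ℝ) ^ 2) ^ N := ⟨_, rfl⟩
      rw [← hq]
      ring
    have h3 : u * (2 * (N : ℝ)) ^ (2 * N) ≤
        (Real.exp 1 * (2 * (N : ℝ) + 1)) ^ 4 * (2 * N).factorial * w := by
      push_cast at hperm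
      exact hperm
    rw [h2]
    have hlm : 0 ≤ lam ^ m := by positivity
    calc (u * (2 * (N : ℝ)) ^ (2 * N)) * lam ^ m
        ≤ ((Real.exp 1 * (2 * (N : ℝ) + 1)) ^ 4 * (2 * N).factorial * w) * lam ^ m :=
          mul_le_mul_of_nonneg_right h3 hlm
      _ = (Real.exp 1 * (2 * (N : ℝ) + 1)) ^ 4 * (2 * N).factorial * (w * lam ^ m) := by ring
      _ ≤ (Real.exp 1 * (2 * (N : ℝ) + 1)) ^ 4 * (2 * N).factorial *
          (2 * (N : ℝ) ^ 2 * (1 + lam)) ^ N := mul_le_mul_of_nonneg_left hgen hc0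
      _ = _ := by
        rw [mul_pow (2 * (N : ℝ) ^ 2) (1 + lam) N]
        obtain ⟨q, hq⟩ : ∃ q : ℝ, q = (2 * (N : ℝ) ^ 2) ^ N := ⟨_, rfl⟩
        obtain ⟨q', hq'⟩ : ∃ q' : ℝ, q' = (Real.exp 1 * (2 * (N : ℝ) + 1)) ^ 4 := ⟨_, rfl⟩
        rw [← hq, ← hq']
        ring
  exact le_of_mul_le_mul_left h1 hpos

end count

end Pool.Agent.T9h47.ST
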