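import Mathlib
import Pool.Agent.T9h47.ST.Cls
import Pool.Agent.T9h47.ST.Tail
import Pool.Agent.T9h47.ST.Cover

/-!
# The stabilisers of gates
-/

set_option autoImplicit false
set_option linter.unusedSectionVars false

namespace Pool.Agent.T9h47.ST

open Finset
open Pool.Agent.T9h47.SC Pool.Agent.T9h47.SE Pool.Agent.T9h49.SD

section index

variable {K U : Type} [Fintype U] [DecidableEq U] (C : Circuit K (Finset U)) (H : Finset U)

theorem im_mul (σ τ : Equiv.Perm U) : im (σ * τ) = im σ ∘ im τ := by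
  funext S
  show S.image (σ * τ) = (S.image τ).image σ
  rw [image_image]
  rfl

theorem im_one : im (1 : Equiv.Perm U) = id := by
  funext S
  exact image_id

theorem im_inv (σ : Equiv.Perm U) : im σ⁻¹ ∘ im σ = id := by
  rw [← im_mul, inv_mul_cancel, im_one]

/-- the permutations of `H` which fix a gate -/
def Hg (g : C.Gate) : Subgroup (Equiv.Perm {u // u ∈ H}) where
  carrier := {σ | ∃ α, C.IsAut (im (Equiv.Perm.ofSubtype σ)) α ∧ α g = g}
  one_mem' := ⟨1, by rw [map_one, im_one]; exact Circuit.IsAut.one C, rfl⟩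
  mul_mem' := by
    rintro σ τ ⟨α, h1, h2⟩ ⟨β, h1', h2'⟩
    exact ⟨α * β, by rw [map_mul, im_mul]; exact h1.mul h1', by
      rw [Equiv.Perm.mul_apply, h2', h2]⟩
  inv_mem' := by
    rintro σ ⟨α, h1, h2⟩
    refine ⟨α⁻¹, by rw [map_inv]; exact h1.inv (im_inv _), ?_⟩
    rw [Equiv.Perm.inv_eq_iff_eq, h2]

theorem mem_Hg {g : C.Gate} {σ : Equiv.Perm {u // u ∈ H}} : σ ∈ Hg C H g ↔
    ∃ α, C.IsAut (im (Equiv.Perm.ofSubtype σ)) α ∧ α g = g := Iff.rfl

variable {H}

theorem Hg_index (hS : SymOn C H) (g : C.Gate) :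
    (Hg C H g).index ≤ @Fintype.card C.Gate C.fin := by
  classical
  let _ := C.fin
  have h1 : ∀ σ : Equiv.Perm {u // u ∈ H}, ∃ α, C.IsAut (im (Equiv.Perm.ofSubtype σ)) α := by
    intro σ
    apply hS
    intro u hu
    exact Equiv.Perm.ofSubtype_apply_of_not_mem σ hu
  choose al hal using h1
  rw [← Nat.card_eq_fintype_card (α := C.Gate), Subgroup.index]
  refine Nat.card_le_card_of_injective (fun q : Equiv.Perm {u // u ∈ H} ⧸ Hg C H g =>
    al q.out g) ?_
  intro q q' hqq
  have h2 : al q.out g = al q'.out g := hqq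
  have h3 : q.out⁻¹ * q'.out ∈ Hg C H g := by
    rw [mem_Hg]
    refine ⟨(al q.out)⁻¹ * al q'.out, ?_, ?_⟩
    · rw [map_mul, map_inv, im_mul]
      exact ((hal _).inv (im_inv _)).mul (hal _)
    · rw [Equiv.Perm.mul_apply, ← h2]
      exact (al q.out).symm_apply_apply g
  have h4 : (QuotientGroup.mk q.out : Equiv.Perm {u // u ∈ H} ⧸ Hg C H g) =
      QuotientGroup.mk q'.out := QuotientGroup.eq.2 h3
  rwa [QuotientGroup.out_eq', QuotientGroup.out_eq'] at h4

end index

section pairs

variable {K U : Type} [Fintype U] [DecidableEq U] (C : Circuit K (Finset U)) {H : Finset U}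
  {N : ℕ} {e : Fin N × ZMod 2 → U} (he : Function.Injective e) (heH : ∀ p, e p ∈ H)

theorem rho_zero : (fun f => im (PF e he f)) (0 : Fin N → ZMod 2) = id := by
  funext S
  show S.image (PF e he 0) = S
  have h : (⇑(PF e he 0) : U → U) = id := by
    funext u
    exact pf_zero e he u
  rw [h, image_id]

theorem rho_add (f f' : Fin N → ZMod 2) : (fun f => im (PF e he f)) (f + f') =
    (fun f => im (PF e he f)) f ∘ (fun f => im (PF e he f)) f' := by
  show im (PF e he (f + f')) = im (PF e he f) ∘ im (PF e he f')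
  rw [← im_mul]
  congr 1
  ext u
  exact pf_add e he f f' u

include heH in
theorem rho_sym (hS : SymOn C H) (f : Fin N → ZMod 2) :
    ∃ α, C.IsAut ((fun f => im (PF e he f)) f) α := by
  apply hS
  intro u hu
  apply pf_out
  rintro ⟨p, rfl⟩
  exact hu (heH p)

/-- the pair `i` lies in the class `c` -/
def Free (g : C.Gate) (c : Quotient (stoid (Hg C H g))) (i : Fin N) : Prop :=
  ∀ x, cls (Hg C H g) ⟨e (i, x), heH (i, x)⟩ = c

theorem perp_free (g : C.Gate) (c : Quotient (stoid (Hg C H g))) {i j : Fin N}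
    (hi : Free C heH g c i) (hj : Free C heH g c j) {w : Fin N → ZMod 2}
    (hw : w ∈ perp (Zg C (fun f => im (PF e he f)) (rho_zero he) (rho_add he) g)) : w i = w j := by
  classical
  by_cases hij : i = j
  · rw [hij]
  have hne : ∀ (i j : Fin N) (x y : ZMod 2), i ≠ j ∨ x ≠ y →
      (⟨e (i, x), heH (i, x)⟩ : {u // u ∈ H}) ≠ ⟨e (j, y), heH (j, y)⟩ := by
    intro i j x y h h'
    have h1 := he (congrArg Subtype.val h')
    rcases h with h | h
    · exact h (congrArg Prod.fst h1)
    · exact h (congrArg Prod.snd h1)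
  have h01 : (0 : ZMod 2) ≠ 1 := by decide
  have hrel : ∀ {a b : {u // u ∈ H}}, cls (Hg C H g) a = c → cls (Hg C H g) b = c →
      Rel (Hg C H g) a b := fun ha hb => (cls_eq _).1 (ha.trans hb.symm)
  have h1 := swap_swap_mem (H := Hg C H g) (a := ⟨e (i, 0), heH (i, 0)⟩)
    (b := ⟨e (i, 1), heH (i, 1)⟩) (c := ⟨e (j, 0), heH (j, 0)⟩) (d := ⟨e (j, 1), heH (j, 1)⟩)
    (hrel (hi 0) (hi 1)) (hrel (hi 0) (hj 0)) (hrel (hi 0) (hj 1))
    (hne _ _ _ _ (Or.inr h01)) (hne _ _ _ _ (Or.inl hij)) (hne _ _ _ _ (Or.inl hij))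
    (hne _ _ _ _ (Or.inl hij)) (hne _ _ _ _ (Or.inr h01))
  rw [mem_Hg] at h1
  obtain ⟨α, h2, h3⟩ := h1
  rw [map_mul, Equiv.Perm.ofSubtype_swap_eq, Equiv.Perm.ofSubtype_swap_eq] at h2
  have h4 : (Pi.single i 1 + Pi.single j 1 : Fin N → ZMod 2) ∈
      Zg C (fun f => im (PF e he f)) (rho_zero he) (rho_add he) g := by
    rw [mem_Zg]
    refine ⟨α, ?_, h3⟩
    show C.IsAut (im (PF e he (Pi.single i 1 + Pi.single j 1))) α
    rw [PF_two e he i j hij]
    exact h2
  have h5 := hw _ h4
  rw [dot_add, dot_comm w, dot_comm w] at h5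
  have h6 : ∀ (i : Fin N), dot (Pi.single i 1) w = w i := by
    intro i
    rw [dot_single]
  rw [h6, h6] at h5
  have h7 : ∀ a b : ZMod 2, a + b = 0 → a = b := by decide
  exact h7 _ _ h5

include he in
theorem card_free (g : C.Gate) (c : Quotient (stoid (Hg C H g))) (t : ℕ)
    (hc : Fintype.card {u // u ∈ H} < t + (univ.filter (fun i => cls (Hg C H g) i = c)).card) :
    N < (open Classical in (univ.filter (fun i => Free C heH g c i)).card) + t := by
  classical
  have h1 : (univ.filter (fun i : Fin N => ¬ Free C heH g c i)).card ≤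
      (univ.filter (fun i => ¬ cls (Hg C H g) i = c)).card := by
    have hex : ∀ i : Fin N, ¬ Free C heH g c i →
        ∃ x, ¬ cls (Hg C H g) ⟨e (i, x), heH (i, x)⟩ = c := by
      intro i hi
      by_contra hcon
      push Not at hcon
      exact hi hcon
    choose! x hx using hex
    refine card_le_card_of_injOn (fun i => ⟨e (i, x i), heH (i, x i)⟩) ?_ ?_
    · intro i hi
      rw [mem_coe, mem_filter] at hi
      rw [mem_coe, mem_filter]
      exact ⟨mem_univ _, hx i hi.2⟩
    · intro i _ j _ hij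
      exact congrArg Prod.fst (he (congrArg Subtype.val hij))
  have h2 := card_filter_add_card_filter_not (s := (univ : Finset (Fin N)))
    (fun i => Free C heH g c i)
  have h3 := card_filter_add_card_filter_not (s := (univ : Finset {u // u ∈ H}))
    (fun i => cls (Hg C H g) i = c)
  rw [card_univ] at h2 h3
  rw [Fintype.card_fin] at h2
  omega

variable {V : Type} [Fintype V] [DecidableEq V] (blk : Fin N × Bool → V)

include heH in
theorem sep_class (g : C.Gate) (c : Quotient (stoid (Hg C H g))) (t : ℕ)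
    (hc : Fintype.card {u // u ∈ H} < t + (univ.filter (fun i => cls (Hg C H g) i = c)).card)
    (hG : ∀ y z, BadP y z → ∀ b, agr blk 1 y z b + t ≤ N) :
    Sep2 (RG blk 1) (perp (Zg C (fun f => im (PF e he f)) (rho_zero he) (rho_add he) g)) := by
  classical
  intro y z hy hz hbad
  have h1 := card_free C he heH g c t hc
  by_cases hne : (univ.filter (fun i : Fin N => Free C heH g c i)).Nonempty
  · obtain ⟨i₀, hi₀⟩ := hne
    rw [mem_filter] at hi₀
    have h2 : (univ.filter (fun i : Fin N => Free C heH g c i)).card ≤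
        agr blk 1 y z (tr (RG blk 1) y i₀, tr (RG blk 1) z i₀) := by
      unfold agr
      apply card_le_card
      intro i hi
      rw [mem_filter] at hi ⊢
      refine ⟨mem_univ _, ?_⟩
      rw [perp_free C he heH g c hi.2 hi₀.2 hy, perp_free C he heH g c hi.2 hi₀.2 hz]
    have h3 := hG y z hbad (tr (RG blk 1) y i₀, tr (RG blk 1) z i₀)
    omega
  · rw [not_nonempty_iff_eq_empty] at hne
    rw [hne, card_empty] at h1
    have h3 := hG y z hbad 0
    omega

end pairs

section gauge

variable {K U : Type} [Fintype U] [DecidableEq U]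
  {N : ℕ} {e : Fin N × ZMod 2 → U} (he : Function.Injective e)
  {V Q : Type} [Fintype V] [DecidableEq V] [Fintype Q] [DecidableEq Q] (blk : Fin N × Bool → V)
  (own : U → V ⊕ Q) (b₀ b₁ : K)

theorem RG_inl (v : V) : RG (fun x => (Sum.inl (blk x) : V ⊕ Q)) 1 (Sum.inl v) = RG blk 1 v := by
  unfold RG
  ext i
  rw [mem_filter, mem_filter]
  simp only [Sum.inl.injEq]

theorem RG_inr (q : Q) : RG (fun x => (Sum.inl (blk x) : V ⊕ Q)) 1 (Sum.inr q) = ∅ := by
  unfold RG
  ext i
  rw [mem_filter]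
  simp

theorem AA_elim (a : Fin N → ZMod 2) : AA (RG (fun x => (Sum.inl (blk x) : V ⊕ Q)) 1) a =
    Sum.elim (AA (RG blk 1) a) 0 := by
  funext j
  rcases j with v | q
  · rw [AA_apply, RG_inl]
    rfl
  · rw [AA_apply, RG_inr, sum_empty]
    rfl

/-- the input for the right hand side `c` -/
noncomputable def xin (c : V → ZMod 2) (S : Finset U) : K :=
  open Classical in
  if S ∈ fam (fun x => (Sum.inl (blk x) : V ⊕ Q)) e own (Sum.elim c 0) then b₁ else b₀

theorem gauge_fam : Gauge (fun f => im (PF e he f)) (RG blk 1)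
    (fun c => xin (e := e) blk own b₀ b₁ c) where
  flip := by
    intro c f
    funext S
    show xin (e := e) blk own b₀ b₁ (c + AA (RG blk 1) f) (S.image (PF e he f)) =
      xin (e := e) blk own b₀ b₁ c S
    have h1 := fam_flip (fun x => (Sum.inl (blk x) : V ⊕ Q)) e own he (Sum.elim c 0) f S
    have h2 : (Sum.elim c 0 + AA (RG (fun x => (Sum.inl (blk x) : V ⊕ Q)) 1) f :
        V ⊕ Q → ZMod 2) = Sum.elim (c + AA (RG blk 1) f) 0 := by
      rw [AA_elim]
      funext j
      rcases j with v | q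
      · rfl
      · show (0 : ZMod 2) + 0 = 0
        rw [add_zero]
    rw [h2] at h1
    unfold xin
    by_cases h3 : S ∈ fam (fun x => (Sum.inl (blk x) : V ⊕ Q)) e own (Sum.elim c 0)
    · rw [if_pos h3, if_pos (h1.2 h3)]
    · rw [if_neg h3, if_neg (fun h4 => h3 (h1.1 h4))]
  loc := by
    intro c S hne
    have h1 : ¬ (S ∈ fam (fun x => (Sum.inl (blk x) : V ⊕ Q)) e own (Sum.elim c 0) ↔
        S ∈ fam (fun x => (Sum.inl (blk x) : V ⊕ Q)) e own 0) := by
      intro h
      apply hne
      have h0 : (Sum.elim (0 : V → ZMod 2) 0 : V ⊕ Q → ZMod 2) = 0 := by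
        funext j
        rcases j with v | q <;> rfl
      show xin (e := e) blk own b₀ b₁ c S = xin (e := e) blk own b₀ b₁ 0 S
      unfold xin
      rw [h0]
      by_cases h3 : S ∈ fam (fun x => (Sum.inl (blk x) : V ⊕ Q)) e own (Sum.elim c 0)
      · rw [if_pos h3, if_pos (h.1 h3)]
      · rw [if_neg h3, if_neg (fun h4 => h3 (h.2 h4))]
    obtain ⟨j, hj, h2⟩ := fam_loc (fun x => (Sum.inl (blk x) : V ⊕ Q)) e own he
      (Sum.elim c 0) S h1
    rcases j with v | q
    · refine ⟨v, hj, fun f hf => ?_⟩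
      have h3 := h2 f hf
      rwa [RG_inl] at h3
    · exact absurd rfl hj

end gauge

end Pool.Agent.T9h47.ST
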