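import Mathlib
import Pool.Agent.T9h47.ST.Tail
import Pool.Agent.T9h47.SE.Pair4

/-!
# Regular graphs in which no two bad cuts agree on more than half of the edges
-/

set_option autoImplicit false
set_option linter.unusedSectionVars false

namespace Pool.Agent.T9h47.ST

open Finset Filter Topology
open Pool.Agent.T9h47.SC Pool.Agent.T9h47.SE

theorem num_poly (k : ℕ) : ∃ μ₀ : ℕ, ∀ μ : ℕ, μ₀ ≤ μ →
    4 * (Real.exp 1 * (2 * ((μ * k : ℕ) : ℝ) + 1)) ^ 4 < Real.exp μ := by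
  have h1 := Real.tendsto_pow_mul_exp_neg_atTop_nhds_zero 4
  have h2 : Tendsto (fun x : ℝ => 4 * (Real.exp 1 * (2 * k + 1)) ^ 4 * (x ^ 4 * Real.exp (-x)))
      atTop (𝓝 0) := by
    have := h1.const_mul (4 * (Real.exp 1 * (2 * (k : ℝ) + 1)) ^ 4)
    rwa [mul_zero] at this
  have h3 := h2.eventually (gt_mem_nhds (show (0 : ℝ) < 1 by norm_num))
  have h4 := tendsto_natCast_atTop_atTop.eventually h3
  rw [eventually_atTop] at h4
  obtain ⟨μ₀, hμ₀⟩ := h4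
  refine ⟨max μ₀ 1, fun μ hμ => ?_⟩
  have h5 := hμ₀ μ ((le_max_left _ _).trans hμ)
  have hμ1 : (1 : ℝ) ≤ μ := by exact_mod_cast (le_max_right _ _).trans hμ
  have h6 : Real.exp (-(μ : ℝ)) * Real.exp μ = 1 := by
    rw [← Real.exp_add]; simp
  have h7 : 4 * (Real.exp 1 * (2 * ((μ * k : ℕ) : ℝ) + 1)) ^ 4 ≤
      4 * (Real.exp 1 * (2 * k + 1)) ^ 4 * (μ : ℝ) ^ 4 := by
    have h8 : Real.exp 1 * (2 * ((μ * k : ℕ) : ℝ) + 1) ≤ Real.exp 1 * (2 * k + 1) * μ := by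
      push_cast
      rw [mul_assoc]
      apply mul_le_mul_of_nonneg_left _ (Real.exp_pos 1).le
      nlinarith
    calc 4 * (Real.exp 1 * (2 * ((μ * k : ℕ) : ℝ) + 1)) ^ 4
        ≤ 4 * (Real.exp 1 * (2 * k + 1) * μ) ^ 4 := by
          apply mul_le_mul_of_nonneg_left _ (by norm_num)
          exact pow_le_pow_left₀ (by positivity) h8 4
      _ = _ := by ring
  have hE := Real.exp_pos (μ : ℝ)
  calc _ ≤ 4 * (Real.exp 1 * (2 * k + 1)) ^ 4 * (μ : ℝ) ^ 4 := h7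
    _ = (4 * (Real.exp 1 * (2 * k + 1)) ^ 4 * ((μ : ℝ) ^ 4 * Real.exp (-(μ : ℝ)))) *
        Real.exp μ := by
          calc _ = 4 * (Real.exp 1 * (2 * k + 1)) ^ 4 * (μ : ℝ) ^ 4 *
                (Real.exp (-(μ : ℝ)) * Real.exp μ) := by rw [h6, mul_one]
            _ = _ := by ring
    _ < 1 * Real.exp μ := mul_lt_mul_of_pos_right h5 hE
    _ = _ := one_mul _

theorem num_exp (δ : ℝ) (hδ : 0 < δ) (hδ1 : δ ≤ 1 / 2) (k μ : ℕ) (hk : 20 ≤ 3 * δ ^ 2 * k)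
    (h : 4 * (Real.exp 1 * (2 * ((μ * k : ℕ) : ℝ) + 1)) ^ 4 < Real.exp μ) (m : ℕ)
    (hm : (1 / 2 + δ) * ((μ * k : ℕ) : ℝ) ≤ m) :
    (4 : ℝ) ^ (2 * μ) * (4 * (Real.exp 1 * (2 * ((μ * k : ℕ) : ℝ) + 1)) ^ 4) *
      (1 + δ / 2) ^ (μ * k) < (1 + δ) ^ m := by
  obtain ⟨N, hN⟩ : ∃ N : ℝ, N = ((μ * k : ℕ) : ℝ) := ⟨_, rfl⟩
  have hN0 : 0 ≤ N := by rw [hN]; exact Nat.cast_nonneg _
  have h1 : (4 : ℝ) ^ (2 * μ) ≤ Real.exp (3 * μ) := by
    have h2 : (4 : ℝ) ^ 2 ≤ Real.exp 3 := by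
      have h3 : Real.exp 3 = Real.exp 1 ^ 3 := by rw [← Real.exp_nat_mul]; norm_num
      rw [h3]
      have h4 := Real.exp_one_gt_d9
      have h5 : (2.7 : ℝ) ^ 3 ≤ Real.exp 1 ^ 3 := pow_le_pow_left₀ (by norm_num) (by linarith) 3
      norm_num at h5 ⊢
      linarith
    rw [pow_mul]
    calc ((4 : ℝ) ^ 2) ^ μ ≤ Real.exp 3 ^ μ := pow_le_pow_left₀ (by norm_num) h2 μ
      _ = Real.exp (3 * μ) := by rw [← Real.exp_nat_mul]; ring_nf
  have h2 : (1 + δ / 2) ^ (μ * k) ≤ Real.exp (δ / 2 * N) := by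
    have h3 : 1 + δ / 2 ≤ Real.exp (δ / 2) := by
      have := Real.add_one_le_exp (δ / 2)
      linarith
    calc (1 + δ / 2) ^ (μ * k) ≤ Real.exp (δ / 2) ^ (μ * k) :=
          pow_le_pow_left₀ (by linarith) h3 _
      _ = _ := by rw [← Real.exp_nat_mul, hN, mul_comm]
  have h3 : Real.exp ((δ / 2 + 3 / 5 * δ ^ 2) * N) ≤ (1 + δ) ^ m := by
    have h4 : (1 + δ) ^ m = Real.exp (m * Real.log (1 + δ)) := by
      rw [Real.exp_nat_mul, Real.exp_log (by linarith)]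
    rw [h4]
    apply Real.exp_le_exp.2
    have h5 := Real.le_log_one_add_of_nonneg hδ.le
    have h6 : (1 / 2 + δ) * N ≤ m := by rw [hN]; exact hm
    have h7 : 0 ≤ 2 * δ / (δ + 2) := by positivity
    calc (δ / 2 + 3 / 5 * δ ^ 2) * N ≤ ((1 / 2 + δ) * (2 * δ / (δ + 2))) * N := by
          apply mul_le_mul_of_nonneg_right _ hN0
          have h8 : (1 / 2 + δ) * (2 * δ / (δ + 2)) = (1 + 2 * δ) * δ / (δ + 2) := by
            field_simp
          rw [h8, le_div_iff₀ (by linarith)]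
          nlinarith
      _ = ((1 / 2 + δ) * N) * (2 * δ / (δ + 2)) := by ring
      _ ≤ m * Real.log (1 + δ) := mul_le_mul h6 h5 h7 (Nat.cast_nonneg _)
  have h4 : (4 : ℝ) * μ ≤ 3 / 5 * δ ^ 2 * N := by
    have h5 : (N : ℝ) = μ * k := by rw [hN]; push_cast; ring
    rw [h5]
    have h6 : (0 : ℝ) ≤ μ := Nat.cast_nonneg _
    nlinarith
  have hq0 : 0 < 4 * (Real.exp 1 * (2 * ((μ * k : ℕ) : ℝ) + 1)) ^ 4 := by positivity
  calc (4 : ℝ) ^ (2 * μ) * (4 * (Real.exp 1 * (2 * ((μ * k : ℕ) : ℝ) + 1)) ^ 4) *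
        (1 + δ / 2) ^ (μ * k)
      ≤ Real.exp (3 * μ) * (4 * (Real.exp 1 * (2 * ((μ * k : ℕ) : ℝ) + 1)) ^ 4) *
        Real.exp (δ / 2 * N) := by
        apply mul_le_mul _ h2 (by positivity) (by positivity)
        exact mul_le_mul_of_nonneg_right h1 hq0.le
    _ < Real.exp (3 * μ) * Real.exp μ * Real.exp (δ / 2 * N) := by
        apply mul_lt_mul_of_pos_right _ (Real.exp_pos _)
        exact mul_lt_mul_of_pos_left h (Real.exp_pos _)
    _ = Real.exp (3 * μ + μ + δ / 2 * N) := by rw [Real.exp_add, Real.exp_add]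
    _ ≤ Real.exp ((δ / 2 + 3 / 5 * δ ^ 2) * N) := by
        apply Real.exp_le_exp.2
        nlinarith
    _ ≤ _ := h3

/-- **Graphs.** -/
theorem exists_graph (δ : ℝ) (hδ : 0 < δ) (hδ1 : δ ≤ 1 / 2) (k : ℕ) (hk : 20 ≤ 3 * δ ^ 2 * k) :
    ∃ μ₀ : ℕ, ∀ μ : ℕ, μ₀ ≤ μ → 0 < μ →
      ∃ blk : Fin (μ * k) × Bool → Fin (2 * μ),
        (∀ v, (univ.filter (fun x => blk x = v)).card = k) ∧
        ∀ y z, BadP y z → ∀ b, (agr blk 1 y z b : ℝ) < (1 / 2 + δ) * ((μ * k : ℕ) : ℝ) := by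
  classical
  obtain ⟨μ₀, hμ₀⟩ := num_poly k
  refine ⟨μ₀, fun μ hμ hμ0 => ?_⟩
  have hk0 : 0 < k := by
    rcases Nat.eq_zero_or_pos k with h | h
    · subst h
      norm_num at hk
    · exact h
  have hN0 : 0 < μ * k := Nat.mul_pos hμ0 hk0
  obtain ⟨blk, hblk⟩ := exists_blk μ k
  obtain ⟨m, hm⟩ : ∃ m : ℕ, m = ⌈(1 / 2 + δ) * ((μ * k : ℕ) : ℝ)⌉₊ := ⟨_, rfl⟩
  have hm1 : (1 / 2 + δ) * ((μ * k : ℕ) : ℝ) ≤ m := by rw [hm]; exact Nat.le_ceil _
  have hV0 : 0 < Fintype.card (Fin (2 * μ)) := by rw [Fintype.card_fin]; omega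
  -- a good arrangement
  have hex : ∃ π : Equiv.Perm (Fin (μ * k) × Bool), ∀ y z, BadP y z → ∀ b,
      agr blk π y z b < m := by
    by_contra hcon
    push Not at hcon
    obtain ⟨Q, hQ⟩ : ∃ Q : Finset (((Fin (2 * μ) → ZMod 2) × (Fin (2 * μ) → ZMod 2)) ×
        (ZMod 2 × ZMod 2)), Q = univ.filter (fun q => BadP q.1.1 q.1.2) := ⟨_, rfl⟩
    have h1 : (univ : Finset (Equiv.Perm (Fin (μ * k) × Bool))) ⊆ Q.biUnion
        (fun q => univ.filter (fun π => m ≤ agr blk π q.1.1 q.1.2 q.2)) := by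
      intro π _
      obtain ⟨y, z, hb, b, hle⟩ := hcon π
      rw [mem_biUnion]
      refine ⟨((y, z), b), ?_, ?_⟩
      · rw [hQ, mem_filter]
        exact ⟨mem_univ _, hb⟩
      · rw [mem_filter]
        exact ⟨mem_univ _, hle⟩
    have h2 := (card_le_card h1).trans card_biUnion_le
    rw [card_univ, Fintype.card_perm, Fintype.card_prod, Fintype.card_fin, Fintype.card_bool,
      mul_comm (μ * k) 2] at h2
    have hlam : (1 : ℝ) ≤ 1 + δ := by linarith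
    obtain ⟨D, hD⟩ : ∃ D : ℝ, D = 2 ^ (μ * k) * (1 + δ) ^ m := ⟨_, rfl⟩
    have hD0 : 0 < D := by rw [hD]; positivity
    obtain ⟨E, hE⟩ : ∃ E : ℝ, E = (Real.exp 1 * (2 * ((μ * k : ℕ) : ℝ) + 1)) ^ 4 *
      (2 * (μ * k)).factorial * (1 + (1 + δ)) ^ (μ * k) := ⟨_, rfl⟩
    have hE0 : 0 ≤ E := by rw [hE]; positivity
    have h3 : ((2 * (μ * k)).factorial : ℝ) * D ≤ Q.card * E := by
      have h4 : ((2 * (μ * k)).factorial : ℝ) ≤
          ∑ q ∈ Q, ((univ.filter (fun π => m ≤ agr blk π q.1.1 q.1.2 q.2)).card : ℝ) := by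
        exact_mod_cast h2
      have h5 : (∑ q ∈ Q, ((univ.filter (fun π => m ≤ agr blk π q.1.1 q.1.2 q.2)).card : ℝ)) * D ≤
          ∑ _q ∈ Q, E := by
        rw [sum_mul]
        refine sum_le_sum fun q hq => ?_
        rw [hQ, mem_filter] at hq
        rw [hD, hE]
        exact pair_tail blk hblk q.1.1 q.1.2 hV0 hq.2 q.2 m (1 + δ) hlam hN0
      rw [sum_const, nsmul_eq_mul] at h5
      exact (mul_le_mul_of_nonneg_right h4 hD0.le).trans h5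
    have h6 : (Q.card : ℝ) ≤ 4 ^ (2 * μ) * 4 := by
      have h7 : Q.card ≤ 4 ^ (2 * μ) * 4 := by
        refine (card_le_univ Q).trans (le_of_eq ?_)
        rw [Fintype.card_prod, Fintype.card_prod, Fintype.card_fun, ZMod.card, Fintype.card_fin]
        have h8 : Fintype.card (ZMod 2 × ZMod 2) = 4 := by decide
        rw [h8, ← mul_pow]
        norm_num
      exact_mod_cast h7
    have h8 := num_exp δ hδ hδ1 k μ hk (hμ₀ μ hμ) m hm1
    have hf : (0 : ℝ) < (2 * (μ * k)).factorial := by exact_mod_cast Nat.factorial_pos _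
    have h9 : ((2 * (μ * k)).factorial : ℝ) * D ≤ 4 ^ (2 * μ) * 4 * E :=
      h3.trans (mul_le_mul_of_nonneg_right h6 hE0)
    have h10 : 4 ^ (2 * μ) * 4 * E < ((2 * (μ * k)).factorial : ℝ) * D := by
      have h11 : (1 + (1 + δ)) ^ (μ * k) = 2 ^ (μ * k) * (1 + δ / 2) ^ (μ * k) := by
        rw [← mul_pow]
        congr 1
        ring
      rw [hD, hE, h11]
      obtain ⟨a, ha⟩ : ∃ a : ℝ, a = (4 : ℝ) ^ (2 * μ) := ⟨_, rfl⟩
      obtain ⟨b, hb⟩ : ∃ b : ℝ, b = (Real.exp 1 * (2 * ((μ * k : ℕ) : ℝ) + 1)) ^ 4 := ⟨_, rfl⟩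
      obtain ⟨c, hc⟩ : ∃ c : ℝ, c = (1 + δ / 2) ^ (μ * k) := ⟨_, rfl⟩
      obtain ⟨d, hd⟩ : ∃ d : ℝ, d = (1 + δ) ^ m := ⟨_, rfl⟩
      obtain ⟨f, hf'⟩ : ∃ f : ℝ, f = ((2 * (μ * k)).factorial : ℝ) := ⟨_, rfl⟩
      obtain ⟨t, ht⟩ : ∃ t : ℝ, t = (2 : ℝ) ^ (μ * k) := ⟨_, rfl⟩
      rw [← ha, ← hb, ← hc, ← hd] at h8
      rw [← hf'] at hf
      rw [← ha, ← hb, ← hc, ← hd, ← hf', ← ht]
      have ht0 : 0 < t := by rw [ht]; positivity
      have h12 : (f * t) * (a * (4 * b) * c) < (f * t) * d :=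
        mul_lt_mul_of_pos_left h8 (mul_pos hf ht0)
      calc a * 4 * (b * f * (t * c)) = (f * t) * (a * (4 * b) * c) := by ring
        _ < (f * t) * d := h12
        _ = f * (t * d) := by ring
    exact absurd h9 (not_le.2 h10)
  obtain ⟨π, hπ⟩ := hex
  refine ⟨fun x => blk (π x), fun v => ?_, fun y z hb b => ?_⟩
  · refine Eq.trans ?_ (hblk v)
    refine card_bij' (fun x _ => π x) (fun x _ => π.symm x) ?_ ?_ ?_ ?_
    · intro x hx
      rw [mem_filter] at hx ⊢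
      exact ⟨mem_univ _, hx.2⟩
    · intro x hx
      rw [mem_filter] at hx ⊢
      refine ⟨mem_univ _, ?_⟩
      show blk (π (π.symm x)) = v
      rw [Equiv.apply_symm_apply]
      exact hx.2
    · intro x _
      exact Equiv.symm_apply_apply _ _
    · intro x _
      exact Equiv.apply_symm_apply _ _
  · have h1 : agr (fun x => blk (π x)) 1 y z b = agr blk π y z b := by
      unfold agr
      congr 1
    rw [h1]
    have h2 := hπ y z hb b
    rw [hm, Nat.lt_ceil] at h2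
    exact h2

end Pool.Agent.T9h47.ST
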