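import Mathlib
import Pool.Agent.T9h47.SE.Pair1

/-!
# Numbers
-/

set_option autoImplicit false
set_option linter.unusedSectionVars false

namespace Pool.Agent.T9h47.ST

open Finset Filter Topology Real
open Pool.Agent.T9h47.SE

theorem choose_entropy (h j : ℕ) (hj0 : 0 < j) (hjh : j < h) :
    Real.exp (h * binEntropy ((j : ℝ) / h)) ≤ (h.choose j : ℝ) * (Real.exp 1 * ((h : ℝ) + 1)) ^ 2 := by
  obtain ⟨r, hr⟩ : ∃ r, r = h - j := ⟨_, rfl⟩
  have hr0 : 0 < r := by omega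
  have hh : h = j + r := by omega
  have hjR : (0 : ℝ) < j := by exact_mod_cast hj0
  have hrR : (0 : ℝ) < r := by exact_mod_cast hr0
  have hhR : (h : ℝ) = j + r := by rw [hh]; push_cast; ring
  have hh0 : (0 : ℝ) < h := by rw [hhR]; linarith
  have h1 : Real.exp (h * binEntropy ((j : ℝ) / h)) * ((j : ℝ) ^ j * (r : ℝ) ^ r) = (h : ℝ) ^ h := by
    have e1 : (1 : ℝ) - j / h = r / h := by
      rw [hhR]
      field_simp
      ring
    have e2 : (h : ℝ) * binEntropy ((j : ℝ) / h) = j * Real.log (h / j) + r * Real.log (h / r) := by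
      unfold binEntropy
      rw [e1, inv_div, inv_div]
      field_simp
    rw [e2, Real.exp_add, Real.exp_nat_mul, Real.exp_nat_mul, Real.exp_log (by positivity),
      Real.exp_log (by positivity), div_pow, div_pow]
    have e3 : (h : ℝ) ^ h = (h : ℝ) ^ j * (h : ℝ) ^ r := by
      rw [← pow_add, ← hh]
    rw [e3]
    have hj1 : (j : ℝ) ^ j ≠ 0 := (pow_pos hjR j).ne'
    have hr1 : (r : ℝ) ^ r ≠ 0 := (pow_pos hrR r).ne'
    field_simp
  have h2 := fact_lower h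
  have h3 := fact_upper j
  have h4 := fact_upper r
  have h5 : (h.factorial : ℝ) = h.choose j * j.factorial * r.factorial := by
    have := Nat.choose_mul_factorial_mul_factorial hjh.le
    rw [← hr] at this
    exact_mod_cast this.symm
  have h6 : Real.exp j * (j.factorial : ℝ) ≤ Real.exp 1 * ((h : ℝ) + 1) * (j : ℝ) ^ j := by
    refine h3.trans (mul_le_mul_of_nonneg_right ?_ (pow_pos hjR j).le)
    exact mul_le_mul_of_nonneg_left (by rw [hhR]; linarith) (Real.exp_pos 1).le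
  have h7 : Real.exp r * (r.factorial : ℝ) ≤ Real.exp 1 * ((h : ℝ) + 1) * (r : ℝ) ^ r := by
    refine h4.trans (mul_le_mul_of_nonneg_right ?_ (pow_pos hrR r).le)
    exact mul_le_mul_of_nonneg_left (by rw [hhR]; linarith) (Real.exp_pos 1).le
  have h8 : Real.exp (h : ℝ) = Real.exp j * Real.exp r := by rw [hhR, Real.exp_add]
  have hP : 0 < (j : ℝ) ^ j * (r : ℝ) ^ r := mul_pos (pow_pos hjR j) (pow_pos hrR r)
  refine le_of_mul_le_mul_right ?_ hP
  rw [h1]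
  calc (h : ℝ) ^ h ≤ Real.exp h * h.factorial := h2
    _ = (h.choose j : ℝ) * ((Real.exp j * j.factorial) * (Real.exp r * r.factorial)) := by
        rw [h8, h5]; ring
    _ ≤ (h.choose j : ℝ) * ((Real.exp 1 * ((h : ℝ) + 1) * (j : ℝ) ^ j) *
        (Real.exp 1 * ((h : ℝ) + 1) * (r : ℝ) ^ r)) := by
        apply mul_le_mul_of_nonneg_left _ (Nat.cast_nonneg _)
        exact mul_le_mul h6 h7 (by positivity) (by positivity)
    _ = _ := by ring

theorem fact_small (ε : ℝ) (hε : 0 < ε) : ∃ h₀ : ℕ, ∀ h : ℕ, h₀ ≤ h → ∀ r : ℕ,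
    (r.factorial : ℝ) ≤ 2 ^ h → (r : ℝ) ≤ ε * h := by
  refine ⟨⌈Real.exp (1 + 1 / ε) / ε⌉₊ + 1, fun h hh r hr => ?_⟩
  by_contra hcon
  push Not at hcon
  have h1 : Real.exp (1 + 1 / ε) / ε < h := by
    have h2 := Nat.le_ceil (Real.exp (1 + 1 / ε) / ε)
    have h3 : ((⌈Real.exp (1 + 1 / ε) / ε⌉₊ : ℕ) : ℝ) + 1 ≤ h := by exact_mod_cast hh
    linarith
  rw [div_lt_iff₀ hε] at h1
  have hr0 : (0 : ℝ) < r := lt_trans (lt_trans (Real.exp_pos _) (by linarith)) hcon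
  have h2 : (r : ℝ) ^ r ≤ Real.exp r * 2 ^ h :=
    (fact_lower r).trans (mul_le_mul_of_nonneg_left hr (Real.exp_pos _).le)
  have h3 : (r : ℝ) * Real.log r ≤ r + h := by
    have h4 := Real.log_le_log (pow_pos hr0 r) h2
    rw [Real.log_pow, Real.log_mul (Real.exp_pos _).ne' (by positivity), Real.log_exp,
      Real.log_pow] at h4
    have h5 := Real.log_two_lt_d9
    have h6 : (0 : ℝ) ≤ h := Nat.cast_nonneg _
    nlinarith
  have h4 : (h : ℝ) < r / ε := by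
    rw [lt_div_iff₀ hε]
    linarith
  have h5 : (r : ℝ) * Real.log r < r * (1 + 1 / ε) := by
    have : (r : ℝ) * (1 + 1 / ε) = r + r / ε := by ring
    linarith
  have h6 : Real.log r < 1 + 1 / ε := lt_of_mul_lt_mul_left h5 hr0.le
  have h7 : (r : ℝ) < Real.exp (1 + 1 / ε) := by
    rwa [← Real.log_lt_iff_lt_exp hr0]
  linarith

theorem poly_small (κ : ℝ) (hκ : 0 < κ) : ∃ h₀ : ℕ, ∀ h : ℕ, h₀ ≤ h →
    2 * (Real.exp 1 * ((h : ℝ) + 1)) ^ 2 < Real.exp (κ * h) := by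
  have h1 := Real.tendsto_pow_mul_exp_neg_atTop_nhds_zero 2
  have h2 : Tendsto (fun x : ℝ => 8 * Real.exp 1 ^ 2 / κ ^ 2 * (x ^ 2 * Real.exp (-x)))
      atTop (𝓝 0) := by
    have := h1.const_mul (8 * Real.exp 1 ^ 2 / κ ^ 2)
    rwa [mul_zero] at this
  have h3 := h2.eventually (gt_mem_nhds (show (0 : ℝ) < 1 by norm_num))
  have h4 : Tendsto (fun h : ℕ => κ * (h : ℝ)) atTop atTop :=
    Tendsto.const_mul_atTop hκ tendsto_natCast_atTop_atTop
  have h5 := h4.eventually h3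
  rw [eventually_atTop] at h5
  obtain ⟨h₀, hh₀⟩ := h5
  refine ⟨max h₀ 1, fun h hh => ?_⟩
  have h6 := hh₀ h ((le_max_left _ _).trans hh)
  have h7 : (1 : ℝ) ≤ h := by exact_mod_cast (le_max_right _ _).trans hh
  have h8 : Real.exp (-(κ * h)) * Real.exp (κ * h) = 1 := by
    rw [← Real.exp_add]; simp
  have h9 : 2 * (Real.exp 1 * ((h : ℝ) + 1)) ^ 2 ≤ 8 * Real.exp 1 ^ 2 * (h : ℝ) ^ 2 := by
    have : (h : ℝ) + 1 ≤ 2 * h := by linarith
    calc 2 * (Real.exp 1 * ((h : ℝ) + 1)) ^ 2 ≤ 2 * (Real.exp 1 * (2 * h)) ^ 2 := by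
          apply mul_le_mul_of_nonneg_left _ (by norm_num)
          exact pow_le_pow_left₀ (by positivity)
            (mul_le_mul_of_nonneg_left this (Real.exp_pos 1).le) 2
      _ = _ := by ring
  have hE := Real.exp_pos (κ * (h : ℝ))
  calc _ ≤ 8 * Real.exp 1 ^ 2 * (h : ℝ) ^ 2 := h9
    _ = (8 * Real.exp 1 ^ 2 / κ ^ 2 * ((κ * h) ^ 2 * Real.exp (-(κ * h)))) *
        Real.exp (κ * h) := by
        calc _ = 8 * Real.exp 1 ^ 2 * (h : ℝ) ^ 2 * (Real.exp (-(κ * h)) * Real.exp (κ * h)) := by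
              rw [h8, mul_one]
          _ = _ := by field_simp
    _ < 1 * Real.exp (κ * h) := mul_lt_mul_of_pos_right h6 hE
    _ = _ := one_mul _

theorem entropy_quarter : binEntropy (1 / 4) = Real.log (4 / 3 ^ (3 / 4 : ℝ)) := by
  unfold binEntropy
  have h3 : (0 : ℝ) < 3 ^ (3 / 4 : ℝ) := Real.rpow_pos_of_pos (by norm_num) _
  rw [Real.log_div (by norm_num) h3.ne', Real.log_rpow (by norm_num)]
  have h1 : ((1 : ℝ) / 4)⁻¹ = 4 := by norm_num
  have h2 : ((1 : ℝ) - 1 / 4)⁻¹ = 4 / 3 := by norm_num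
  rw [h1, h2, Real.log_div (by norm_num) (by norm_num)]
  ring

/-- **Numbers.** -/
theorem num_main (β : ℝ) (hβ1 : 1 ≤ β) (hβ : β < 4 / 3 ^ (3 / 4 : ℝ)) :
    ∃ δ : ℝ, 0 < δ ∧ δ ≤ 1 / 8 ∧ ∃ h₀ : ℕ, ∀ h : ℕ, h₀ ≤ h → ∀ m ind : ℕ,
      (m / 2).factorial ≤ ind → (ind : ℝ) ≤ β ^ h → ∀ j : ℕ, (1 / 4 - δ) * h ≤ j →
        (j : ℝ) + (1 / 4 - δ) * h ≤ h → 2 ^ m * ind < h.choose j := by
  have hβ0 : 0 < β := by linarith
  have hlog : Real.log β < binEntropy (1 / 4) := by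
    rw [entropy_quarter]
    exact Real.log_lt_log hβ0 hβ
  -- the choice of `δ`
  obtain ⟨δ, hδ0, hδ1, hδ2⟩ : ∃ δ : ℝ, 0 < δ ∧ δ ≤ 1 / 8 ∧
      Real.log β < binEntropy (1 / 4 - δ) := by
    have hc : Tendsto (fun δ : ℝ => binEntropy (1 / 4 - δ)) (𝓝[>] 0) (𝓝 (binEntropy (1 / 4))) := by
      have h1 : Continuous (fun δ : ℝ => binEntropy (1 / 4 - δ)) :=
        binEntropy_continuous.comp (continuous_const.sub continuous_id)
      have h2 := h1.tendsto 0
      simp only [sub_zero] at h2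
      exact h2.mono_left nhdsWithin_le_nhds
    have h3 := hc.eventually (lt_mem_nhds hlog)
    have h4 : ∀ᶠ δ : ℝ in 𝓝[>] 0, δ < 1 / 8 :=
      (gt_mem_nhds (show (0 : ℝ) < 1 / 8 by norm_num)).filter_mono nhdsWithin_le_nhds
    have h5 : ∀ᶠ δ : ℝ in 𝓝[>] 0, 0 < δ := self_mem_nhdsWithin
    obtain ⟨δ, h6, h7, h8⟩ := (h3.and (h4.and h5)).exists
    exact ⟨δ, h8, h7.le, h6⟩
  obtain ⟨κ, hκ⟩ : ∃ κ : ℝ, κ = binEntropy (1 / 4 - δ) - Real.log β := ⟨_, rfl⟩
  have hκ0 : 0 < κ := by rw [hκ]; linarith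
  obtain ⟨h₁, hh₁⟩ := fact_small (κ / 8) (by positivity)
  obtain ⟨h₂, hh₂⟩ := poly_small (κ / 2) (by positivity)
  refine ⟨δ, hδ0, hδ1, max (max h₁ h₂) 1, fun h hh m ind hm hind j hj1 hj2 => ?_⟩
  have hhh₁ : h₁ ≤ h := (le_max_left _ _).trans ((le_max_left _ _).trans hh)
  have hhh₂ : h₂ ≤ h := (le_max_right _ _).trans ((le_max_left _ _).trans hh)
  have hh1 : (1 : ℝ) ≤ h := by exact_mod_cast (le_max_right _ _).trans hh
  have hh0 : (0 : ℝ) < h := by linarith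
  -- the number of classes
  have hβ2 : β ≤ 2 := by
    have h1 : (4 : ℝ) / 3 ^ (3 / 4 : ℝ) ≤ 2 := by
      have h2 : binEntropy (1 / 4) ≤ Real.log 2 := binEntropy_le_log_two
      rw [entropy_quarter] at h2
      have h3 : (0 : ℝ) < 4 / 3 ^ (3 / 4 : ℝ) := by positivity
      exact (Real.log_le_log_iff h3 (by norm_num)).1 h2
    linarith
  have h1 : ((m / 2).factorial : ℝ) ≤ 2 ^ h := by
    calc ((m / 2).factorial : ℝ) ≤ ind := by exact_mod_cast hm
      _ ≤ β ^ h := hind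
      _ ≤ 2 ^ h := pow_le_pow_left₀ hβ0.le hβ2 h
  have h2 := hh₁ h hhh₁ (m / 2) h1
  have h3 : (m : ℝ) ≤ κ / 4 * h + 1 := by
    have h4 : m ≤ 2 * (m / 2) + 1 := by omega
    have h5 : (m : ℝ) ≤ 2 * ((m / 2 : ℕ) : ℝ) + 1 := by exact_mod_cast h4
    linarith
  have h4 : (2 : ℝ) ^ m ≤ 2 * Real.exp (κ / 4 * h) := by
    have h5 : (2 : ℝ) ^ m = Real.exp (m * Real.log 2) := by
      rw [Real.exp_nat_mul, Real.exp_log (by norm_num)]
    have h6 : (2 : ℝ) * Real.exp (κ / 4 * h) = Real.exp (κ / 4 * h + Real.log 2) := by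
      rw [Real.exp_add, Real.exp_log (by norm_num)]
      ring
    rw [h5, h6]
    apply Real.exp_le_exp.2
    have h7 := Real.log_two_lt_d9
    have h8 : 0 ≤ Real.log 2 := Real.log_nonneg (by norm_num)
    have h9 : 0 ≤ κ / 4 * h := by positivity
    nlinarith
  -- the binomial coefficient
  have hq : 0 < 1 / 4 - δ := by linarith
  have hj0 : 0 < j := by
    have : (0 : ℝ) < j := lt_of_lt_of_le (mul_pos hq hh0) hj1
    exact_mod_cast this
  have hjh : j < h := by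
    have : (j : ℝ) < h := by nlinarith
    exact_mod_cast this
  have h5 := choose_entropy h j hj0 hjh
  have h6 : binEntropy (1 / 4 - δ) ≤ binEntropy ((j : ℝ) / h) := by
    have a1 : 1 / 4 - δ ≤ (j : ℝ) / h := by rw [le_div_iff₀ hh0]; exact hj1
    have a2 : (j : ℝ) / h ≤ 1 - (1 / 4 - δ) := by
      rw [div_le_iff₀ hh0]
      linarith
    have hmono := binEntropy_strictMonoOn.monotoneOn
    rcases le_total ((j : ℝ) / h) 2⁻¹ with h7 | h7
    · exact hmono ⟨hq.le, by norm_num; linarith⟩ ⟨hq.le.trans a1, h7⟩ a1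
    · rw [← binEntropy_one_sub ((j : ℝ) / h)]
      exact hmono ⟨hq.le, by norm_num; linarith⟩
        ⟨by linarith, by norm_num at h7 ⊢; linarith⟩ (by linarith)
  have h7 : β ^ h * Real.exp (κ * h) ≤ (h.choose j : ℝ) * (Real.exp 1 * ((h : ℝ) + 1)) ^ 2 := by
    refine le_trans ?_ h5
    have h8 : β ^ h = Real.exp (h * Real.log β) := by
      rw [Real.exp_nat_mul, Real.exp_log hβ0]
    rw [h8, ← Real.exp_add]
    apply Real.exp_le_exp.2
    rw [hκ]
    nlinarith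
  have h8 := hh₂ h hhh₂
  obtain ⟨P, hP⟩ : ∃ P : ℝ, P = (Real.exp 1 * ((h : ℝ) + 1)) ^ 2 := ⟨_, rfl⟩
  have hP0 : 0 < P := by rw [hP]; positivity
  rw [← hP] at h7 h8
  have hβh : 0 < β ^ h := pow_pos hβ0 h
  have h9 : ((2 ^ m * ind : ℕ) : ℝ) * P < (h.choose j : ℝ) * P := by
    push_cast
    have hexp : Real.exp (κ * h) = Real.exp (κ / 4 * h) * (Real.exp (κ / 4 * h) *
        Real.exp (κ / 2 * h)) := by
      rw [← Real.exp_add, ← Real.exp_add]
      congr 1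
      ring
    have he1 : 1 ≤ Real.exp (κ / 4 * h) := Real.one_le_exp (by positivity)
    have he0 := Real.exp_pos (κ / 4 * (h : ℝ))
    calc (2 : ℝ) ^ m * ind * P ≤ (2 * Real.exp (κ / 4 * h)) * β ^ h * P := by
          apply mul_le_mul_of_nonneg_right _ hP0.le
          exact mul_le_mul h4 hind (Nat.cast_nonneg _) (by positivity)
      _ = (β ^ h * Real.exp (κ / 4 * h)) * (2 * P) := by ring
      _ < (β ^ h * Real.exp (κ / 4 * h)) * Real.exp (κ / 2 * h) :=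
          mul_lt_mul_of_pos_left h8 (mul_pos hβh he0)
      _ ≤ (β ^ h * Real.exp (κ / 4 * h)) * (Real.exp (κ / 4 * h) * Real.exp (κ / 2 * h)) := by
          apply mul_le_mul_of_nonneg_left _ (mul_pos hβh he0).le
          exact le_mul_of_one_le_left (Real.exp_pos _).le he1
      _ = β ^ h * Real.exp (κ * h) := by rw [hexp]; ring
      _ ≤ _ := h7
  have h10 := lt_of_mul_lt_mul_right h9 hP0.le
  exact_mod_cast h10

end Pool.Agent.T9h47.ST
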