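import Mathlib
import Pool.Agent.T9h47.ST.Graph
import Pool.Agent.T9h47.ST.Gates
import Pool.Agent.T9h47.ST.Num

/-!
# Set cover and symmetric circuits
-/

set_option autoImplicit false
set_option linter.unusedSectionVars false

namespace Pool.Agent.T9h47.ST

open Finset
open Pool.Agent.T9h47.SC Pool.Agent.T9h47.SE Pool.Agent.T9h49.SD

section place

variable {n : ℕ} (H : Finset (Fin n)) (N μ : ℕ) (hH : 2 * N + 2 * μ ≤ H.card)

/-- the points of `H` in order -/
noncomputable def num : {u // u ∈ H} ≃ Fin H.card := H.equivFin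

include hH in
theorem idx_lt (i : Fin N) (x : ZMod 2) : 2 * i.1 + x.val < H.card := by
  have h1 := i.2
  have h2 := ZMod.val_lt x
  omega

/-- the pairs of points -/
noncomputable def ee (p : Fin N × ZMod 2) : Fin n :=
  ((num H).symm ⟨2 * p.1.1 + p.2.val, idx_lt H N μ hH p.1 p.2⟩).1

theorem ee_mem (p : Fin N × ZMod 2) : ee H N μ hH p ∈ H :=
  ((num H).symm ⟨2 * p.1.1 + p.2.val, idx_lt H N μ hH p.1 p.2⟩).2

theorem ee_num (p : Fin N × ZMod 2) :
    (num H ⟨ee H N μ hH p, ee_mem H N μ hH p⟩).1 = 2 * p.1.1 + p.2.val := by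
  have h1 : (⟨ee H N μ hH p, ee_mem H N μ hH p⟩ : {u // u ∈ H}) =
      (num H).symm ⟨2 * p.1.1 + p.2.val, idx_lt H N μ hH p.1 p.2⟩ := Subtype.ext rfl
  rw [h1, Equiv.apply_symm_apply]

theorem ee_inj : Function.Injective (ee H N μ hH) := by
  intro p q hpq
  have h1 := ee_num H N μ hH p
  have h2 := ee_num H N μ hH q
  have h3 : (⟨ee H N μ hH p, ee_mem H N μ hH p⟩ : {u // u ∈ H}) =
      ⟨ee H N μ hH q, ee_mem H N μ hH q⟩ := Subtype.ext hpq
  rw [h3, h2] at h1
  have h4 := ZMod.val_lt p.2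
  have h5 := ZMod.val_lt q.2
  refine Prod.ext (Fin.ext (by omega)) (ZMod.val_injective 2 (by omega))

theorem ee_iff (u : Fin n) : (∃ p, ee H N μ hH p = u) ↔ ∃ hu : u ∈ H, (num H ⟨u, hu⟩).1 < 2 * N := by
  constructor
  · rintro ⟨p, rfl⟩
    refine ⟨ee_mem H N μ hH p, ?_⟩
    rw [ee_num]
    have h1 := p.1.2
    have h2 := ZMod.val_lt p.2
    omega
  · rintro ⟨hu, h1⟩
    obtain ⟨l, hl⟩ : ∃ l, l = (num H ⟨u, hu⟩).1 := ⟨_, rfl⟩
    rw [← hl] at h1
    refine ⟨(⟨l / 2, by omega⟩, ((l % 2 : ℕ) : ZMod 2)), ?_⟩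
    have h2 : ((l % 2 : ℕ) : ZMod 2).val = l % 2 := ZMod.val_cast_of_lt (Nat.mod_lt _ (by norm_num))
    have h3 : (num H ⟨ee H N μ hH (⟨l / 2, by omega⟩, ((l % 2 : ℕ) : ZMod 2)),
        ee_mem H N μ hH _⟩).1 = (num H ⟨u, hu⟩).1 := by
      rw [ee_num, ← hl]
      show 2 * (l / 2) + ((l % 2 : ℕ) : ZMod 2).val = l
      rw [h2]
      omega
    have h4 := (num H).injective (Fin.ext h3)
    exact congrArg Subtype.val h4

/-- the vertices of the points outside the pairs -/
noncomputable def oo (hμ : 0 < μ) (u : Fin n) : Fin (2 * μ) ⊕ {u // u ∉ H} :=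
  open Classical in
  if hu : u ∈ H then
    Sum.inl (if h : (num H ⟨u, hu⟩).1 - 2 * N < 2 * μ then ⟨(num H ⟨u, hu⟩).1 - 2 * N, h⟩
      else ⟨0, by omega⟩)
  else Sum.inr ⟨u, hu⟩

theorem oo_surj (hμ : 0 < μ) (j : Fin (2 * μ) ⊕ {u // u ∉ H}) :
    ∃ u, (¬ ∃ p, ee H N μ hH p = u) ∧ oo H N μ hμ u = j := by
  rcases j with v | ⟨u, hu⟩
  · have hv : 2 * N + v.1 < H.card := by
      have := v.2
      omega
    obtain ⟨w, hw⟩ : ∃ w, w = (num H).symm ⟨2 * N + v.1, hv⟩ := ⟨_, rfl⟩
    have h1 : (num H w).1 = 2 * N + v.1 := by rw [hw, Equiv.apply_symm_apply]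
    refine ⟨w.1, ?_, ?_⟩
    · rw [ee_iff]
      rintro ⟨hu, h2⟩
      have h3 : (⟨w.1, hu⟩ : {u // u ∈ H}) = w := Subtype.ext rfl
      rw [h3, h1] at h2
      omega
    · unfold oo
      rw [dif_pos w.2]
      have h3 : (⟨w.1, w.2⟩ : {u // u ∈ H}) = w := Subtype.ext rfl
      have h4 : (num H ⟨w.1, w.2⟩).1 - 2 * N = v.1 := by rw [h3, h1]; omega
      rw [dif_pos (by rw [h4]; exact v.2)]
      congr 1
      exact Fin.ext h4
  · refine ⟨u, ?_, ?_⟩
    · rintro ⟨p, rfl⟩
      exact hu (ee_mem H N μ hH p)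
    · unfold oo
      rw [dif_neg hu]

theorem oo_card (hμ : 0 < μ) (r : ℕ) (hr : H.card ≤ 2 * N + 2 * μ + r)
    (j : Fin (2 * μ) ⊕ {u // u ∉ H}) :
    (open Classical in (univ.filter (fun u => (¬ ∃ p, ee H N μ hH p = u) ∧
      oo H N μ hμ u = j)).card) ≤ r + 1 := by
  classical
  rcases j with v | ⟨u, hu⟩
  · have h1 : (univ.filter (fun u => (¬ ∃ p, ee H N μ hH p = u) ∧
        oo H N μ hμ u = Sum.inl v)).card ≤
        (insert (2 * N + v.1) (Ico (2 * N + 2 * μ) H.card)).card := by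
      refine card_le_card_of_injOn (fun u => if hu : u ∈ H then (num H ⟨u, hu⟩).1 else 0) ?_ ?_
      · intro u hu
        rw [mem_coe, mem_filter] at hu
        obtain ⟨_, h1, h2⟩ := hu
        have huH : u ∈ H := by
          by_contra h3
          unfold oo at h2
          rw [dif_neg h3] at h2
          exact absurd h2 (by simp)
        show (if hu : u ∈ H then (num H ⟨u, hu⟩).1 else 0) ∈
          (↑(insert (2 * N + v.1) (Ico (2 * N + 2 * μ) H.card)) : Set ℕ)
        rw [dif_pos huH, mem_coe, mem_insert, mem_Ico]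
        have h4 : ¬ (num H ⟨u, huH⟩).1 < 2 * N := fun h5 => h1 ((ee_iff H N μ hH u).2 ⟨huH, h5⟩)
        have h6 := (num H ⟨u, huH⟩).2
        unfold oo at h2
        rw [dif_pos huH] at h2
        by_cases h7 : (num H ⟨u, huH⟩).1 - 2 * N < 2 * μ
        · rw [dif_pos h7] at h2
          have h8 : (num H ⟨u, huH⟩).1 - 2 * N = v.1 := congrArg Fin.val (Sum.inl.inj h2)
          left
          omega
        · right
          omega
      · intro u hu w hw huw
        rw [mem_coe, mem_filter] at hu hw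
        have key : ∀ u, oo H N μ hμ u = Sum.inl v → u ∈ H := by
          intro u h2
          by_contra h3
          unfold oo at h2
          rw [dif_neg h3] at h2
          exact absurd h2 (by simp)
        have hu' := key u hu.2.2
        have hw' := key w hw.2.2
        have h3 : (if hu : u ∈ H then (num H ⟨u, hu⟩).1 else 0) =
          (if hu : w ∈ H then (num H ⟨w, hu⟩).1 else 0) := huw
        rw [dif_pos hu', dif_pos hw'] at h3
        exact congrArg Subtype.val ((num H).injective (Fin.ext h3))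
    have h2 := card_insert_le (2 * N + v.1) (Ico (2 * N + 2 * μ) H.card)
    rw [Nat.card_Ico] at h2
    omega
  · have h1 : univ.filter (fun w => (¬ ∃ p, ee H N μ hH p = w) ∧
        oo H N μ hμ w = Sum.inr ⟨u, hu⟩) ⊆ {u} := by
      intro w hw
      rw [mem_filter] at hw
      rw [mem_singleton]
      have h2 := hw.2.2
      unfold oo at h2
      by_cases h3 : w ∈ H
      · rw [dif_pos h3] at h2
        exact absurd h2 (by simp)
      · rw [dif_neg h3] at h2
        exact congrArg Subtype.val (Sum.inr.inj h2)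
    have h2 := card_le_card h1
    rw [card_singleton] at h2
    omega

end place

section count

variable {N : ℕ} {J U : Type} [Fintype J] [DecidableEq J] [Fintype U] [DecidableEq U]
  (bl : Fin N × Bool → J) (e : Fin N × ZMod 2 → U) (own : U → J)

theorem fam_card (c : J → ZMod 2) (k : ℕ) (hk : ∀ j, (univ.filter (fun x => bl x = j)).card ≤ k) :
    (fam bl e own c).ncard ≤ Fintype.card J * 2 ^ k := by
  classical
  obtain ⟨E, hE⟩ : ∃ E : J → Finset (Fin N),
    E = fun j => (univ.filter (fun x => bl x = j)).image Prod.fst := ⟨_, rfl⟩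
  obtain ⟨Fs, hFs⟩ : ∃ Fs : Finset (Finset U), Fs = (univ : Finset J).biUnion
    (fun j => (univ : Finset (E j → ZMod 2)).image
      (fun s => st bl e own j (fun i => if h : i ∈ E j then s ⟨i, h⟩ else 0))) := ⟨_, rfl⟩
  have h1 : fam bl e own c ⊆ (Fs : Set (Finset U)) := by
    rintro S ⟨j, a, rfl, _⟩
    rw [hFs, mem_coe, mem_biUnion]
    refine ⟨j, mem_univ _, ?_⟩
    rw [mem_image]
    refine ⟨fun i => a i.1, mem_univ _, ?_⟩
    obtain ⟨a', ha'⟩ : ∃ a' : Fin N → ZMod 2, a' = fun i => if i ∈ E j then a i else 0 :=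
      ⟨_, rfl⟩
    have ha2 : ∀ i ∈ E j, a i = a' i := by
      intro i hi
      rw [ha']
      exact (if_pos hi).symm
    have ha3 : (fun i => if h : i ∈ E j then (fun i : E j => a i.1) ⟨i, h⟩ else 0) = a' := by
      rw [ha']
      funext i
      by_cases hi : i ∈ E j
      · rw [dif_pos hi, if_pos hi]
      · rw [dif_neg hi, if_neg hi]
    rw [ha3]
    have key : ∀ a a' : Fin N → ZMod 2, (∀ i ∈ E j, a i = a' i) → ∀ u,
        u ∈ st bl e own j a → u ∈ st bl e own j a' := by
      intro a a' haa u hu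
      unfold st at hu ⊢
      rw [mem_filter] at hu ⊢
      refine ⟨mem_univ _, ?_⟩
      rcases hu.2 with h2 | ⟨i, b, h2, h3⟩
      · exact Or.inl h2
      · right
        refine ⟨i, b, h2, ?_⟩
        rw [← haa i (by
          rw [hE, mem_image]
          exact ⟨(i, b), mem_filter.2 ⟨mem_univ _, h2⟩, rfl⟩)]
        exact h3
    ext u
    constructor
    · exact key a' a (fun i hi => (ha2 i hi).symm) u
    · exact key a a' ha2 u
  have h2 := Set.ncard_le_ncard h1 (Finset.finite_toSet _)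
  rw [Set.ncard_coe_finset] at h2
  refine h2.trans ?_
  rw [hFs]
  refine card_biUnion_le.trans ?_
  calc ∑ j, ((univ : Finset (E j → ZMod 2)).image
      (fun s => st bl e own j (fun i => if h : i ∈ E j then s ⟨i, h⟩ else 0))).card
      ≤ ∑ _j : J, 2 ^ k := by
        refine sum_le_sum fun j _ => card_image_le.trans ?_
        rw [card_univ, Fintype.card_fun, ZMod.card, Fintype.card_coe]
        apply Nat.pow_le_pow_right (by norm_num)
        rw [hE]
        exact card_image_le.trans (hk j)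
    _ = Fintype.card J * 2 ^ k := by rw [sum_const, card_univ, smul_eq_mul]

end count

end Pool.Agent.T9h47.ST
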