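import Mathlib
import Pool.Agent.T9h47.ST.Main

/-!
# Set cover and symmetric circuits: the lower bound
-/

set_option autoImplicit false
set_option linter.unusedSectionVars false

namespace Pool.Agent.T9h47.ST

open Finset
open Pool.Agent.T9h47.SC Pool.Agent.T9h47.SE Pool.Agent.T9h49.SD

/-- the combinatorial core: two families which circuits cannot tell apart if all gates have a large
class -/
theorem core {n N k₀ μ : ℕ} (H : Finset (Fin n)) (hμ : 0 < μ) (hN : N = μ * k₀)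
    (hH : 2 * N + 2 * μ ≤ H.card) (hH' : H.card ≤ 2 * N + 2 * μ + (2 * k₀ + 2))
    (blk : Fin N × Bool → Fin (2 * μ)) (hblk : ∀ v, (univ.filter (fun x => blk x = v)).card = k₀)
    (t : ℕ) (hG : ∀ y z, BadP y z → ∀ b, agr blk 1 y z b + t ≤ N) :
    ∃ F₀ F₁ : Set (Finset (Fin n)),
      (∀ S, S ∈ F₀ ∨ S ∈ F₁ → S.card ≤ 2 ^ k₀ + 3 * k₀ + 3) ∧
      F₀.ncard ≤ (2 ^ k₀ + 3 * k₀ + 3) * n ∧ F₁.ncard ≤ (2 ^ k₀ + 3 * k₀ + 3) * n ∧
      Part F₀ (2 * μ + (n - H.card)) ∧ ¬ Cov F₁ (2 * μ + (n - H.card)) ∧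
      ∀ (K : Type) (C : Circuit K (Finset (Fin n))) (b₀ b₁ : K), SymOn C H →
        (∀ g, ∃ c, Fintype.card {u // u ∈ H} <
          t + (univ.filter (fun i => cls (Hg C H g) i = c)).card) →
        C.val (inpF b₀ b₁ F₀) C.out = C.val (inpF b₀ b₁ F₁) C.out := by
  classical
  have hcJ : Fintype.card (Fin (2 * μ) ⊕ {u // u ∉ H}) = 2 * μ + (n - H.card) := by
    rw [Fintype.card_sum, Fintype.card_fin, Fintype.card_subtype_compl, Fintype.card_fin,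
      Fintype.card_coe]
  have hHn : H.card ≤ n := by
    have := card_le_univ H
    rwa [Fintype.card_fin] at this
  have he := ee_inj H N μ hH
  have heH := ee_mem H N μ hH
  obtain ⟨bl, hbl⟩ : ∃ bl : Fin N × Bool → Fin (2 * μ) ⊕ {u // u ∉ H},
    bl = fun x => Sum.inl (blk x) := ⟨_, rfl⟩
  have hdeg : ∀ j, (univ.filter (fun x => bl x = j)).card ≤ k₀ := by
    intro j
    rcases j with v | u
    · rw [← hblk v]
      apply card_le_card
      intro x hx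
      rw [mem_filter] at hx ⊢
      refine ⟨mem_univ _, ?_⟩
      have h1 := hx.2
      rw [hbl] at h1
      exact Sum.inl.inj h1
    · have h1 : univ.filter (fun x => bl x = Sum.inr u) = ∅ := by
        rw [filter_eq_empty_iff]
        intro x _
        rw [hbl]
        exact fun h => absurd h (by simp)
      rw [h1, card_empty]
      exact Nat.zero_le _
  obtain ⟨own, hown⟩ : ∃ own, own = oo H N μ hμ := ⟨_, rfl⟩
  have hsurj : ∀ j, ∃ u, (¬ ∃ p, ee H N μ hH p = u) ∧ own u = j := by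
    rw [hown]
    exact oo_surj H N μ hH hμ
  -- the families are small
  have hsmall : ∀ c : Fin (2 * μ) ⊕ {u // u ∉ H} → ZMod 2,
      (∀ S ∈ fam bl (ee H N μ hH) own c, S.card ≤ 2 ^ k₀ + 3 * k₀ + 3) ∧
      (fam bl (ee H N μ hH) own c).ncard ≤ (2 ^ k₀ + 3 * k₀ + 3) * n := by
    intro c
    constructor
    · rintro S ⟨j, a, rfl, _⟩
      have h1 := card_st bl (ee H N μ hH) own j a
      have h2 := oo_card H N μ hH hμ (2 * k₀ + 2) hH' j
      have h3 := hdeg j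
      have h5 : (2 * k₀ + 2 + 1) + k₀ ≤ 2 ^ k₀ + 3 * k₀ + 3 := by
        calc (2 * k₀ + 2 + 1) + k₀ = 3 * k₀ + 3 := by ring
          _ ≤ 2 ^ k₀ + (3 * k₀ + 3) := Nat.le_add_left _ _
          _ = _ := by ring
      refine h1.trans ((Nat.add_le_add ?_ h3).trans h5)
      refine le_trans (card_le_card ?_) h2
      intro u hu
      rw [mem_filter] at hu ⊢
      rw [hown] at hu
      exact hu
    · refine (fam_card bl (ee H N μ hH) own c k₀ hdeg).trans ?_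
      rw [hcJ, mul_comm]
      have h1 : 2 * μ + (n - H.card) ≤ n := by omega
      refine Nat.mul_le_mul ?_ h1
      rw [add_assoc]
      exact Nat.le_add_right _ _
  have hone := tr_RG_one blk 1
  have hVc : Fintype.card (Fin (2 * μ)) = 2 * μ := Fintype.card_fin _
  have hV : 2 ≤ Fintype.card (Fin (2 * μ)) := by rw [hVc]; omega
  obtain ⟨j₀⟩ : Nonempty (Fin (2 * μ)) := ⟨⟨0, by omega⟩⟩
  obtain ⟨c, hc⟩ : ∃ c, c = cRG blk j₀ 1 := ⟨_, rfl⟩
  have hc2 : ¬ ∃ a, AA (RG blk 1) a = c := by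
    rw [hc]
    exact cRG_unsat blk j₀ hV 1
  refine ⟨fam bl (ee H N μ hH) own (Sum.elim 0 0), fam bl (ee H N μ hH) own (Sum.elim c 0),
    ?_, (hsmall _).2, (hsmall _).2, ?_, ?_, ?_⟩
  · rintro S (h | h)
    · exact (hsmall _).1 S h
    · exact (hsmall _).1 S h
  · rw [← hcJ]
    apply part_fam bl (ee H N μ hH) own he _ 0
    rw [map_zero]
    funext j
    rcases j with v | q <;> rfl
  · rw [← hcJ, cov_fam bl (ee H N μ hH) own he hsurj]
    rintro ⟨a, ha⟩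
    apply hc2
    refine ⟨a, ?_⟩
    rw [hbl, AA_elim] at ha
    funext v
    exact congrFun ha (Sum.inl v)
  intro K C b₀ b₁ hS hcl
  -- the separation property
  have hsep : ∀ g, Sep2 (RG blk 1)
      (perp (Zg C (fun f => im (PF (ee H N μ hH) he f)) (rho_zero he) (rho_add he) g)) := by
    intro g
    obtain ⟨c, hc⟩ := hcl g
    exact sep_class C he heH blk g c t hc hG
  have hsym := rho_sym C he heH hS
  have hgood : ∃ c, Good (RG blk 1) ⊤ c := by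
    have h1 := hsep C.out
    rw [Zg_out C _ (rho_zero he) (rho_add he) hsym] at h1
    exact exists_good2 (RG blk 1) hone ⊤ h1
  have hc1 : Good (RG blk 1) ⊤ c := by
    rw [hc]
    exact cRG_good blk j₀ 1 hgood
  have hval := same_val_gau2 C (fun f => im (PF (ee H N μ hH) he f)) (rho_zero he) (rho_add he)
    (RG blk 1) hone hsym (fun c => xin (e := ee H N μ hH) blk own b₀ b₁ c)
    (gauge_fam he blk own b₀ b₁) hV hsep c hc1
  have hx : ∀ c : Fin (2 * μ) → ZMod 2, xin (e := ee H N μ hH) blk own b₀ b₁ c =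
      inpF b₀ b₁ (fam bl (ee H N μ hH) own (Sum.elim c 0)) := by
    intro c
    rw [hbl]
    rfl
  rw [← hx, ← hx]
  exact hval.symm

/-- **Set cover needs large symmetric circuits.** -/
theorem cover_bound (β : ℝ) (hβ0 : 0 ≤ β) (hβ : β < 4 / 3 ^ (3 / 4 : ℝ)) :
    ∃ k h₀ : ℕ, ∀ (n : ℕ) (H : Finset (Fin n)), h₀ ≤ H.card →
      ∃ t ≤ n, ∃ F₀ F₁ : Set (Finset (Fin n)),
        (∀ S, S ∈ F₀ ∨ S ∈ F₁ → S.card ≤ k) ∧ F₀.ncard ≤ k * n ∧ F₁.ncard ≤ k * n ∧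
        Part F₀ t ∧ ¬ Cov F₁ t ∧
        ∀ (K : Type) (C : Circuit K (Finset (Fin n))) (b₀ b₁ : K), SymOn C H →
          (@Fintype.card C.Gate C.fin : ℝ) ≤ β ^ H.card →
          C.val (inpF b₀ b₁ F₀) C.out = C.val (inpF b₀ b₁ F₁) C.out := by
  classical
  obtain ⟨β₁, hβ₁⟩ : ∃ β₁, β₁ = max β 1 := ⟨_, rfl⟩
  have hβ₁1 : 1 ≤ β₁ := by rw [hβ₁]; exact le_max_right _ _
  have hββ₁ : β ≤ β₁ := by rw [hβ₁]; exact le_max_left _ _
  have h3 : (3 : ℝ) ^ (3 / 4 : ℝ) < 4 := by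
    have h4 : (3 : ℝ) ^ (3 / 4 : ℝ) ≤ 3 ^ (1 : ℝ) :=
      Real.rpow_le_rpow_of_exponent_le (by norm_num) (by norm_num)
    rw [Real.rpow_one] at h4
    linarith
  have h30 : (0 : ℝ) < 3 ^ (3 / 4 : ℝ) := Real.rpow_pos_of_pos (by norm_num) _
  have hβ₁2 : β₁ < 4 / 3 ^ (3 / 4 : ℝ) := by
    rw [hβ₁]
    refine max_lt hβ ?_
    rw [lt_div_iff₀ h30, one_mul]
    exact h3
  obtain ⟨δ, hδ0, hδ1, h₁, hh₁⟩ := num_main β₁ hβ₁1 hβ₁2
  obtain ⟨k₀, hk₀⟩ : ∃ k₀ : ℕ, k₀ = ⌈20 / (3 * δ ^ 2)⌉₊ + ⌈1 / δ⌉₊ := ⟨_, rfl⟩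
  have hk₁ : 20 ≤ 3 * δ ^ 2 * k₀ := by
    have h4 : 20 / (3 * δ ^ 2) ≤ k₀ := by
      refine (Nat.le_ceil _).trans ?_
      rw [hk₀]
      push_cast
      have : (0 : ℝ) ≤ (⌈1 / δ⌉₊ : ℕ) := Nat.cast_nonneg _
      linarith
    rw [div_le_iff₀ (by positivity)] at h4
    linarith
  have hk₂ : 1 ≤ δ * k₀ := by
    have h4 : 1 / δ ≤ k₀ := by
      refine (Nat.le_ceil _).trans ?_
      rw [hk₀]
      push_cast
      have : (0 : ℝ) ≤ (⌈20 / (3 * δ ^ 2)⌉₊ : ℕ) := Nat.cast_nonneg _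
      linarith
    rw [div_le_iff₀ hδ0] at h4
    linarith
  obtain ⟨μ₀, hμ₀⟩ := exists_graph δ hδ0 (by linarith) k₀ hk₁
  refine ⟨2 ^ k₀ + 3 * k₀ + 3, max (max h₁ 12) ((μ₀ + k₀ + 3) * (2 * k₀ + 2)),
    fun n H hH => ?_⟩
  obtain ⟨h, hh⟩ : ∃ h, h = H.card := ⟨_, rfl⟩
  rw [← hh] at hH
  have hH1 : h₁ ≤ h := (le_max_left _ _).trans ((le_max_left _ _).trans hH)
  have hH2 : 12 ≤ h := (le_max_right _ _).trans ((le_max_left _ _).trans hH)
  have hH3 : (μ₀ + k₀ + 3) * (2 * k₀ + 2) ≤ h := (le_max_right _ _).trans hH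
  obtain ⟨μ, hμ⟩ : ∃ μ, μ = h / (2 * k₀ + 2) := ⟨_, rfl⟩
  have hμ1 : μ₀ + k₀ + 3 ≤ μ := by
    rw [hμ, Nat.le_div_iff_mul_le (by omega)]
    exact hH3
  have hμ2 : μ * (2 * k₀ + 2) ≤ h := by rw [hμ]; exact Nat.div_mul_le_self _ _
  have hμ3 : h < (μ + 1) * (2 * k₀ + 2) := by
    rw [hμ]
    have := Nat.lt_div_mul_add (a := h) (b := 2 * k₀ + 2) (by omega)
    calc h < h / (2 * k₀ + 2) * (2 * k₀ + 2) + (2 * k₀ + 2) := this
      _ = _ := by ring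
  obtain ⟨blk, hblk, hgr⟩ := hμ₀ μ (by omega) (by omega)
  have hHn : h ≤ n := by
    have := card_le_univ H
    rw [Fintype.card_fin] at this
    omega
  have e1 : μ * (2 * k₀ + 2) = 2 * (μ * k₀) + 2 * μ := by ring
  have e2 : (μ + 1) * (2 * k₀ + 2) = 2 * (μ * k₀) + 2 * μ + (2 * k₀ + 2) := by ring
  rw [e1] at hμ2
  rw [e2] at hμ3
  have hhR : (12 : ℝ) ≤ h := by exact_mod_cast hH2
  obtain ⟨t, ht⟩ : ∃ t : ℕ, t = ⌈(1 / 4 - δ) * (h : ℝ)⌉₊ := ⟨_, rfl⟩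
  have hq : 0 < (1 / 4 - δ) * (h : ℝ) := mul_pos (by linarith) (by linarith)
  have ht0 : 0 < t := by rw [ht]; exact Nat.ceil_pos.2 hq
  have ht1 : (1 / 4 - δ) * (h : ℝ) ≤ t := by rw [ht]; exact Nat.le_ceil _
  have ht2 : (t : ℝ) < (1 / 4 - δ) * (h : ℝ) + 1 := by
    rw [ht]
    exact Nat.ceil_lt_add_one hq.le
  have ht3 : 3 * t ≤ h := by
    have : (3 : ℝ) * t ≤ h := by nlinarith
    exact_mod_cast this
  have hcardH : Fintype.card {u // u ∈ H} = h := by rw [Fintype.card_coe, hh]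
  have hG : ∀ y z, BadP y z → ∀ b, agr blk 1 y z b + t ≤ μ * k₀ := by
    intro y z hb b
    have h4 := hgr y z hb b
    have h5 : (h : ℝ) ≤ 2 * ((μ * k₀ : ℕ) : ℝ) + 2 * μ + (2 * k₀ + 2) := by
      exact_mod_cast hμ3.le
    have h6 : (μ : ℝ) ≤ δ * ((μ * k₀ : ℕ) : ℝ) := by
      push_cast
      have : (0 : ℝ) ≤ μ := Nat.cast_nonneg _
      nlinarith
    have h7 : (k₀ : ℝ) + 3 ≤ μ := by
      have : k₀ + 3 ≤ μ := by omega
      exact_mod_cast this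
    have h8 : (1 / 4 - δ) * (h : ℝ) ≤
        (1 / 4 - δ) * (2 * ((μ * k₀ : ℕ) : ℝ) + 2 * μ + (2 * k₀ + 2)) :=
      mul_le_mul_of_nonneg_left h5 (by linarith)
    have h9 : (0 : ℝ) ≤ ((μ * k₀ : ℕ) : ℝ) := Nat.cast_nonneg _
    have h10 : (0 : ℝ) ≤ δ * (2 * μ + (2 * k₀ + 2)) := by positivity
    have h11 : ((agr blk 1 y z b + t : ℕ) : ℝ) < ((μ * k₀ : ℕ) : ℝ) := by
      rw [Nat.cast_add]
      nlinarith
    exact (Nat.cast_lt.1 h11).le
  obtain ⟨F₀, F₁, hF1, hF2, hF3, hF4, hF5, hF6⟩ := core H (by omega) rfl (by omega) (by omega)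
    blk hblk t hG
  refine ⟨2 * μ + (n - H.card), by omega, F₀, F₁, hF1, hF2, hF3, hF4, hF5, ?_⟩
  intro K C b₀ b₁ hS hcon
  rw [← hh] at hcon
  have hs : (@Fintype.card C.Gate C.fin : ℝ) ≤ β₁ ^ h :=
    hcon.trans (pow_le_pow_left₀ hβ0 hββ₁ h)
  refine hF6 K C b₀ b₁ hS ?_
  · intro g
    apply exists_class (Hg C H g) t (by rw [hcardH]; exact ht3) ht0
    intro j hj1 hj2
    rw [hcardH] at hj2 ⊢
    have hind : ((Hg C H g).index : ℝ) ≤ β₁ ^ h := by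
      refine le_trans ?_ hs
      exact_mod_cast Hg_index C hS g
    apply hh₁ h hH1 _ _ (index_ge (Hg C H g)) hind j
    · exact ht1.trans (by exact_mod_cast hj1)
    · have h4 : (j : ℝ) + t ≤ h := by exact_mod_cast hj2
      linarith

end Pool.Agent.T9h47.ST
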