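import Mathlib
import Pool.Agent.T9h47.ST.Fin

/-!
# Inclusion-exclusion as a symmetric circuit
-/

set_option autoImplicit false
set_option linter.unusedSectionVars false

namespace Pool.Agent.T9h47.ST

open Finset
open Pool.Agent.T9h47.SC Pool.Agent.T9h47.SE

/-- the gates of the inclusion-exclusion circuit: one input gate and one counting gate for each
subset of the universe, and the output gate -/
abbrev IG (n : ℕ) : Type := Finset (Fin n) ⊕ (Finset (Fin n) ⊕ Unit)

noncomputable local instance (n : ℕ) : DecidableEq (IG n) := Classical.decEq _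

section

variable {n : ℕ}

/-- input gate -/
abbrev iS (S : Finset (Fin n)) : IG n := Sum.inl S
/-- counting gate -/
abbrev iX (X : Finset (Fin n)) : IG n := Sum.inr (Sum.inl X)
/-- output gate -/
abbrev iO : IG n := Sum.inr (Sum.inr ())

/-- sum -/
def sumOp (m : ℕ → Multiset ℤ) : ℤ := (m 0).sum

/-- sum of the `t`-th powers in the role `0` minus sum of the `t`-th powers in the role `1` -/
def altOp (t : ℕ) (m : ℕ → Multiset ℤ) : ℤ :=
  ((m 0).map (fun z => z ^ t)).sum - ((m 1).map (fun z => z ^ t)).sum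

/-- children -/
noncomputable def ikids : IG n → Finset (ℕ × IG n)
  | Sum.inl _ => ∅
  | Sum.inr (Sum.inl X) => (univ.filter (fun S : Finset (Fin n) => Disjoint S X)).image
      (fun S => (0, iS S))
  | Sum.inr (Sum.inr _) => univ.image (fun X : Finset (Fin n) => (X.card % 2, iX X))

theorem mem_ikids_S (S : Finset (Fin n)) (p : ℕ × IG n) : p ∈ ikids (iS S) ↔ False := by
  show p ∈ (∅ : Finset _) ↔ _
  simp only [notMem_empty]

theorem mem_ikids_X (X : Finset (Fin n)) (p : ℕ × IG n) :
    p ∈ ikids (iX X) ↔ ∃ S, Disjoint S X ∧ p = (0, iS S) := by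
  show p ∈ (univ.filter (fun S : Finset (Fin n) => Disjoint S X)).image
    (fun S => ((0 : ℕ), (iS S : IG n))) ↔ _
  rw [mem_image]
  simp only [mem_filter, mem_univ, true_and, eq_comm (b := p)]

theorem mem_ikids_O (p : ℕ × IG n) : p ∈ ikids (iO : IG n) ↔
    ∃ X : Finset (Fin n), p = (X.card % 2, iX X) := by
  show p ∈ univ.image (fun X : Finset (Fin n) => (X.card % 2, (iX X : IG n))) ↔ _
  rw [mem_image]
  simp only [mem_univ, true_and, eq_comm (b := p)]

/-- rank -/
def irank : IG n → ℕ
  | Sum.inl _ => 0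
  | Sum.inr (Sum.inl _) => 1
  | Sum.inr (Sum.inr _) => 2

/-- labels -/
def ilab (t : ℕ) : IG n → Finset (Fin n) ⊕ ((ℕ → Multiset ℤ) → ℤ)
  | Sum.inl S => Sum.inl S
  | Sum.inr (Sum.inl _) => Sum.inr sumOp
  | Sum.inr (Sum.inr _) => Sum.inr (altOp t)

variable (n)

/-- the inclusion-exclusion circuit -/
noncomputable def incExc (t : ℕ) : Circuit ℤ (Finset (Fin n)) where
  Gate := IG n
  fin := inferInstance
  rank := irank
  lab := ilab t
  kids := ikids
  out := iO
  rank_lt := by
    intro g p hp
    rcases g with S | X | u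
    · rw [mem_ikids_S] at hp
      exact absurd hp id
    · obtain ⟨S, _, rfl⟩ := (mem_ikids_X X p).1 hp
      exact Nat.zero_lt_one
    · obtain ⟨X, rfl⟩ := (mem_ikids_O p).1 hp
      exact Nat.one_lt_two

variable {n}

/-- the image under a permutation, as a permutation of the sets -/
def imE (σ : Equiv.Perm (Fin n)) : Equiv.Perm (Finset (Fin n)) where
  toFun := im σ
  invFun := im σ⁻¹
  left_inv S := congrFun (im_inv σ) S
  right_inv S := by
    have h := congrFun (im_inv σ⁻¹) S
    rw [inv_inv] at h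
    exact h

/-- the automorphism of the inclusion-exclusion circuit -/
def iaut (σ : Equiv.Perm (Fin n)) : Equiv.Perm (IG n) :=
  Equiv.sumCongr (imE σ) (Equiv.sumCongr (imE σ) (Equiv.refl Unit))

theorem disjoint_im (σ : Equiv.Perm (Fin n)) (S X : Finset (Fin n)) :
    Disjoint (im σ S) (im σ X) ↔ Disjoint S X :=
  disjoint_image σ.injective

theorem card_im (σ : Equiv.Perm (Fin n)) (X : Finset (Fin n)) : (im σ X).card = X.card :=
  card_image_of_injective X σ.injective

theorem iaut_kids (σ : Equiv.Perm (Fin n)) (g h : IG n) (r : ℕ) :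
    (r, iaut σ h) ∈ ikids (iaut σ g) ↔ (r, h) ∈ ikids g := by
  rcases g with S | X | u
  · show _ ∈ ikids (iS (im σ S)) ↔ _
    rw [mem_ikids_S, mem_ikids_S]
  · show _ ∈ ikids (iX (im σ X)) ↔ _
    rw [mem_ikids_X, mem_ikids_X]
    constructor
    · rintro ⟨E, hE, heq⟩
      have h1 := Prod.ext_iff.1 heq
      have hr : r = 0 := h1.1
      have h2 : iaut σ h = iS E := h1.2
      rcases h with D | b | v
      · have h3 : im σ D = E := Sum.inl.inj h2
        subst h3
        exact ⟨D, (disjoint_im σ D X).1 hE, by rw [hr]⟩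
      · cases h2
      · cases h2
    · rintro ⟨E, hE, heq⟩
      have h1 := Prod.ext_iff.1 heq
      have hr : r = 0 := h1.1
      have h2 : h = iS E := h1.2
      subst hr h2
      exact ⟨im σ E, (disjoint_im σ E X).2 hE, rfl⟩
  · show _ ∈ ikids (iO : IG n) ↔ _ ∈ ikids (iO : IG n)
    rw [mem_ikids_O, mem_ikids_O]
    constructor
    · rintro ⟨Y, heq⟩
      have h1 := Prod.ext_iff.1 heq
      have hr : r = Y.card % 2 := h1.1
      have h2 : iaut σ h = iX Y := h1.2
      rcases h with D | Y' | v
      · cases h2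
      · have h3 : im σ Y' = Y := Sum.inl.inj (Sum.inr.inj h2)
        subst h3
        rw [card_im] at hr
        exact ⟨Y', by rw [hr]⟩
      · cases h2
    · rintro ⟨Y, heq⟩
      have h1 := Prod.ext_iff.1 heq
      have hr : r = Y.card % 2 := h1.1
      have h2 : h = iX Y := h1.2
      subst hr h2
      refine ⟨im σ Y, ?_⟩
      rw [card_im]
      rfl

theorem incExc_sym (t : ℕ) : SymOn (incExc n t) univ := by
  intro σ _
  refine ⟨iaut σ, rfl, ?_, fun g r h => iaut_kids σ g h r⟩
  rintro (S | X | u) <;> rfl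

theorem incExc_card (t : ℕ) : @Fintype.card (incExc n t).Gate (incExc n t).fin =
    2 ^ (n + 1) + 1 := by
  have h0 : @Fintype.card (incExc n t).Gate (incExc n t).fin = Fintype.card (IG n) := rfl
  rw [h0, Fintype.card_sum, Fintype.card_sum, Fintype.card_finset, Fintype.card_fin,
    Fintype.card_unit, pow_succ]
  omega

/-- the number of sets of the family which are disjoint from `X` -/
noncomputable def cnt (F : Set (Finset (Fin n))) (X : Finset (Fin n)) : ℤ :=
  ∑ S ∈ univ.filter (fun S : Finset (Fin n) => Disjoint S X), inpF (0 : ℤ) 1 F S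

theorem val_X (F : Set (Finset (Fin n))) (t : ℕ) (X : Finset (Fin n)) :
    (incExc n t).val (inpF 0 1 F) (iX X : IG n) = cnt F X := by
  have h1 : (incExc n t).val (inpF 0 1 F) (iX X : IG n) =
      sumOp fun r => ((ikids (iX X : IG n)).filter (fun p => p.1 = r)).val.map
        (fun p => (incExc n t).val (inpF 0 1 F) p.2) :=
    (incExc n t).val_inr _ (iX X : IG n) sumOp rfl
  rw [h1]
  have h2 : (ikids (iX X : IG n)).filter (fun p => p.1 = 0) =
      (univ.filter (fun S : Finset (Fin n) => Disjoint S X)).image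
        (fun S => ((0 : ℕ), (iS S : IG n))) := by
    apply filter_true_of_mem
    intro p hp
    obtain ⟨S, _, rfl⟩ := (mem_ikids_X X p).1 hp
    rfl
  show (((ikids (iX X : IG n)).filter (fun p => p.1 = 0)).val.map
        (fun p => (incExc n t).val (inpF 0 1 F) p.2)).sum = _
  rw [h2]
  show ∑ p ∈ (univ.filter (fun S : Finset (Fin n) => Disjoint S X)).image
        (fun S => ((0 : ℕ), (iS S : IG n))), (incExc n t).val (inpF 0 1 F) p.2 = _
  rw [sum_image]
  · apply sum_congr rfl
    intro S _
    exact (incExc n t).val_inl _ (iS S : IG n) S rfl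
  · intro S _ S' _ h
    exact Sum.inl.inj (Prod.ext_iff.1 h).2

theorem sum_role (F : Set (Finset (Fin n))) (t r : ℕ) :
    ((((ikids (iO : IG n)).filter (fun p => p.1 = r)).val.map
        (fun p => (incExc n t).val (inpF 0 1 F) p.2)).map (fun z => z ^ t)).sum =
      ∑ X ∈ univ.filter (fun X : Finset (Fin n) => X.card % 2 = r), cnt F X ^ t := by
  have h2 : (ikids (iO : IG n)).filter (fun p => p.1 = r) =
      (univ.filter (fun X : Finset (Fin n) => X.card % 2 = r)).image
        (fun X => (X.card % 2, (iX X : IG n))) := by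
    ext p
    rw [mem_filter, mem_ikids_O, mem_image]
    constructor
    · rintro ⟨⟨X, rfl⟩, h⟩
      exact ⟨X, mem_filter.2 ⟨mem_univ _, h⟩, rfl⟩
    · rintro ⟨X, hX, rfl⟩
      exact ⟨⟨X, rfl⟩, (mem_filter.1 hX).2⟩
  rw [h2, Multiset.map_map]
  show ∑ p ∈ (univ.filter (fun X : Finset (Fin n) => X.card % 2 = r)).image
        (fun X => (X.card % 2, (iX X : IG n))), ((incExc n t).val (inpF 0 1 F) p.2) ^ t = _
  rw [sum_image]
  · apply sum_congr rfl
    intro X _
    rw [val_X]
  · intro S _ S' _ h
    exact Sum.inl.inj (Sum.inr.inj (Prod.ext_iff.1 h).2)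

theorem val_O (F : Set (Finset (Fin n))) (t : ℕ) :
    (incExc n t).val (inpF 0 1 F) (incExc n t).out =
      ∑ X : Finset (Fin n), (-1) ^ X.card * cnt F X ^ t := by
  have h1 : (incExc n t).val (inpF 0 1 F) (incExc n t).out =
      altOp t fun r => ((ikids (iO : IG n)).filter (fun p => p.1 = r)).val.map
        (fun p => (incExc n t).val (inpF 0 1 F) p.2) :=
    (incExc n t).val_inr _ (iO : IG n) (altOp t) rfl
  rw [h1]
  unfold altOp
  rw [sum_role, sum_role, sum_filter, sum_filter, ← sum_sub_distrib]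
  apply sum_congr rfl
  intro X _
  rcases Nat.mod_two_eq_zero_or_one X.card with h | h
  · rw [if_pos h, if_neg (by omega), (Nat.even_iff.2 h).neg_one_pow]
    ring
  · rw [if_neg (by omega), if_pos h, (Nat.odd_iff.2 h).neg_one_pow]
    ring

theorem cnt_pow (F : Set (Finset (Fin n))) (t : ℕ) (X : Finset (Fin n)) :
    cnt F X ^ t = ∑ T : Fin t → Finset (Fin n),
      open Classical in if (∀ i, T i ∈ F) ∧ (∀ i, Disjoint (T i) X) then 1 else 0 := by
  classical
  have h1 : cnt F X = ∑ S : Finset (Fin n), if S ∈ F ∧ Disjoint S X then (1 : ℤ) else 0 := by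
    unfold cnt
    rw [sum_filter]
    apply sum_congr rfl
    intro S _
    unfold inpF
    by_cases h2 : Disjoint S X
    · by_cases h3 : S ∈ F
      · rw [if_pos h2, if_pos h3, if_pos ⟨h3, h2⟩]
      · rw [if_pos h2, if_neg h3, if_neg (fun h => h3 h.1)]
    · rw [if_neg h2, if_neg (fun h => h2 h.2)]
  rw [h1, Fintype.sum_pow]
  apply sum_congr rfl
  intro T _
  by_cases h : (∀ i, T i ∈ F) ∧ (∀ i, Disjoint (T i) X)
  · rw [if_pos h]
    apply prod_eq_one
    intro i _
    rw [if_pos ⟨h.1 i, h.2 i⟩]
  · rw [if_neg h]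
    have h2 : ∃ i, ¬ (T i ∈ F ∧ Disjoint (T i) X) := by
      by_contra hcon
      push Not at hcon
      exact h ⟨fun i => (hcon i).1, fun i => (hcon i).2⟩
    obtain ⟨i, hi⟩ := h2
    exact prod_eq_zero (mem_univ i) (if_neg hi)

theorem val_count (F : Set (Finset (Fin n))) (t : ℕ) :
    (incExc n t).val (inpF 0 1 F) (incExc n t).out =
      ∑ T : Fin t → Finset (Fin n),
        open Classical in if (∀ i, T i ∈ F) ∧ ∀ u, ∃ i, u ∈ T i then 1 else 0 := by
  classical
  rw [val_O]
  have h1 : ∀ X : Finset (Fin n), (-1 : ℤ) ^ X.card * cnt F X ^ t =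
      ∑ T : Fin t → Finset (Fin n),
        if (∀ i, T i ∈ F) ∧ (∀ i, Disjoint (T i) X) then (-1 : ℤ) ^ X.card else 0 := by
    intro X
    rw [cnt_pow, mul_sum]
    apply sum_congr rfl
    intro T _
    rw [mul_ite, mul_one, mul_zero]
  rw [sum_congr rfl (fun X _ => h1 X), sum_comm]
  apply sum_congr rfl
  intro T _
  by_cases hF : ∀ i, T i ∈ F
  · obtain ⟨W, hW⟩ : ∃ W : Finset (Fin n), W = univ.filter (fun u => ∀ i, u ∉ T i) := ⟨_, rfl⟩
    have h2 : ∀ X : Finset (Fin n), ((∀ i, T i ∈ F) ∧ (∀ i, Disjoint (T i) X)) ↔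
        X ∈ W.powerset := by
      intro X
      rw [mem_powerset]
      constructor
      · intro h u hu
        rw [hW, mem_filter]
        refine ⟨mem_univ _, fun i hi => ?_⟩
        exact (disjoint_left.1 (h.2 i)) hi hu
      · intro h
        refine ⟨hF, fun i => ?_⟩
        rw [disjoint_left]
        intro u hu hX
        have h3 := h hX
        rw [hW, mem_filter] at h3
        exact h3.2 i hu
    have h3 : ∑ X : Finset (Fin n), (if (∀ i, T i ∈ F) ∧ (∀ i, Disjoint (T i) X)
        then (-1 : ℤ) ^ X.card else 0) = ∑ X ∈ W.powerset, (-1 : ℤ) ^ X.card := by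
      rw [← sum_filter]
      apply sum_congr
      · ext X
        rw [mem_filter, h2]
        exact ⟨fun h => h.2, fun h => ⟨mem_univ _, h⟩⟩
      · intro _ _
        rfl
    rw [h3, sum_powerset_neg_one_pow_card]
    have h4 : W = ∅ ↔ (∀ i, T i ∈ F) ∧ ∀ u, ∃ i, u ∈ T i := by
      rw [hW, filter_eq_empty_iff]
      constructor
      · intro h
        refine ⟨hF, fun u => ?_⟩
        have h5 := h (mem_univ u)
        push Not at h5
        exact h5
      · intro h u _
        push Not
        exact h.2 u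
    by_cases h5 : W = ∅
    · rw [if_pos h5, if_pos (h4.1 h5)]
    · rw [if_neg h5, if_neg (fun h => h5 (h4.2 h))]
  · rw [if_neg (fun h => hF h.1)]
    apply sum_eq_zero
    intro X _
    rw [if_neg (fun h => hF h.1)]

/-- the inclusion-exclusion circuit solves set cover -/
theorem incExc_pos (hn : 0 < n) (F : Set (Finset (Fin n))) (t : ℕ) :
    0 < (incExc n t).val (inpF 0 1 F) (incExc n t).out ↔ Cov F t := by
  classical
  rw [val_count, sum_pos_iff_of_nonneg]
  · constructor
    · rintro ⟨T, _, hT⟩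
      have h1 : (∀ i, T i ∈ F) ∧ ∀ u, ∃ i, u ∈ T i := by
        by_contra hcon
        rw [if_neg hcon] at hT
        exact lt_irrefl _ hT
      refine ⟨univ.image T, ?_, ?_, ?_⟩
      · intro S hS
        obtain ⟨i, _, rfl⟩ := mem_image.1 hS
        exact h1.1 i
      · refine card_image_le.trans_eq ?_
        rw [card_univ, Fintype.card_fin]
      · intro u
        obtain ⟨i, hi⟩ := h1.2 u
        exact ⟨T i, mem_image_of_mem _ (mem_univ _), hi⟩
    · rintro ⟨T, hTF, hTc, hT⟩
      obtain ⟨S₀, hS₀, _⟩ := hT ⟨0, hn⟩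
      obtain ⟨g, hg⟩ : ∃ g : Fin t → Finset (Fin n), g = fun i : Fin t => (T.toList[(i : ℕ)]?).getD S₀ :=
        ⟨_, rfl⟩
      refine ⟨g, mem_univ _, ?_⟩
      rw [if_pos]
      · exact zero_lt_one
      · constructor
        · intro i
          rw [hg]
          show (T.toList[(i : ℕ)]?).getD S₀ ∈ F
          rcases h : T.toList[(i : ℕ)]? with _ | S
          · exact hTF _ hS₀
          · have h2 : S ∈ T.toList := List.mem_of_getElem? h
            rw [mem_toList] at h2
            exact hTF S h2
        · intro u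
          obtain ⟨S, hS, hu⟩ := hT u
          rw [← mem_toList] at hS
          obtain ⟨i, hi, rfl⟩ := List.mem_iff_getElem.1 hS
          have hi' : i < t := by
            rw [length_toList] at hi
            omega
          refine ⟨⟨i, hi'⟩, ?_⟩
          rw [hg]
          show u ∈ (T.toList[i]?).getD S₀
          rw [List.getElem?_eq_getElem hi]
          exact hu
  · intro T _
    split_ifs
    · exact zero_le_one
    · exact le_rfl

end

end Pool.Agent.T9h47.ST
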